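import Mathlib

set_option autoImplicit false
open MeasureTheory

namespace Pool.Agent.TH9

/-- Haar function of the dyadic interval `[2^k a, 2^k (a+1))` (value `1` on the left half,
`-1` on the right half). -/
noncomputable def H (k : ℤ) (a : ℕ) (x : ℝ) : ℝ :=
  Set.indicator (Set.Ico ((2:ℝ) ^ k * (a : ℝ)) ((2:ℝ) ^ k * (a : ℝ) + (2:ℝ) ^ (k - 1)))
      (fun _ => (1:ℝ)) x
    - Set.indicator (Set.Ico ((2:ℝ) ^ k * (a : ℝ) + (2:ℝ) ^ (k - 1)) ((2:ℝ) ^ k * ((a : ℝ) + 1)))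
      (fun _ => (1:ℝ)) x

/-- sign of the position `i` in a block of length `M` -/
noncomputable def sg (M i : ℕ) : ℝ := if 2 * i < M then 1 else -1

/-- average of `|f|^3` over the square `[0,2^n)^2` -/
noncomputable def a3 (n : ℕ) (f : ℕ → ℕ → ℝ) : ℝ :=
  (4:ℝ)⁻¹ ^ n * ∑ i ∈ Finset.range (2 ^ n), ∑ j ∈ Finset.range (2 ^ n), |f i j| ^ 3

/-- the discrete form at scale `s` -/
noncomputable def Lam (n s : ℕ) (f g h : ℕ → ℕ → ℝ) : ℝ :=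
  (4:ℝ)⁻¹ ^ s * (8:ℝ)⁻¹ ^ (n - s) *
    ∑ p ∈ Finset.range (2 ^ s), ∑ q ∈ Finset.range (2 ^ s),
      ∑ i ∈ Finset.range (2 ^ (n - s)), ∑ j ∈ Finset.range (2 ^ (n - s)),
        ∑ k ∈ Finset.range (2 ^ (n - s)),
          sg (2 ^ (n - s)) i * sg (2 ^ (n - s)) j * sg (2 ^ (n - s)) k *
            f (p * 2 ^ (n - s) + i) (q * 2 ^ (n - s) + j) *
            g (q * 2 ^ (n - s) + j) ((p ^^^ q) * 2 ^ (n - s) + k) *
            h ((p ^^^ q) * 2 ^ (n - s) + k) (p * 2 ^ (n - s) + i)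

/-- the finite statement -/
def FS (C : ℝ) : Prop :=
  ∀ (n : ℕ) (f g h : ℕ → ℕ → ℝ),
    ∑ s ∈ Finset.range n, |Lam n s f g h| ≤ C * (a3 n f + a3 n g + a3 n h)

/-- the cube `[0,2^N)^3` -/
def Q3 (N : ℕ) : Set (ℝ × ℝ × ℝ) :=
  Set.Ico (0:ℝ) (2 ^ N) ×ˢ (Set.Ico (0:ℝ) (2 ^ N) ×ˢ Set.Ico (0:ℝ) (2 ^ N))

/-- the square `[0,2^N)^2` -/
def Q2 (N : ℕ) : Set (ℝ × ℝ) := Set.Ico (0:ℝ) (2 ^ N) ×ˢ Set.Ico (0:ℝ) (2 ^ N)

/-- samples of `f` on the shifted grid of mesh `2^-m` -/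
noncomputable def smp (m : ℕ) (f : ℝ × ℝ → ℝ) (u v : ℝ) (i j : ℕ) : ℝ :=
  f (((i : ℝ) + u) / 2 ^ m, ((j : ℝ) + v) / 2 ^ m)

/-- bounded measurable functions supported in the open square `(-2^N,2^N)^2` -/
structure Good (N : ℕ) (M : ℝ) (f : ℝ × ℝ → ℝ) : Prop where
  meas : Measurable f
  bdd : ∀ p, |f p| ≤ M
  supp : ∀ p : ℝ × ℝ, f p ≠ 0 → |p.1| < 2 ^ N ∧ |p.2| < 2 ^ N

/-- value of the Haar function of the block `a` at the cell `i`, blocks of length `M` -/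
noncomputable def chi (M i a : ℕ) : ℝ := if i / M = a then sg M (i % M) else 0

/-- the integrand of the form for the Haar triple `(a, b, a xor b)` -/
noncomputable def W (k : ℤ) (a b : ℕ) (f g h : ℝ × ℝ → ℝ) (x y z : ℝ) : ℝ :=
  f (x, y) * g (y, z) * h (z, x) * H k a x * H k b y * H k (a ^^^ b) z

/-- the continuous form at scale `k`, without the factor `2^-k` -/
noncomputable def T (k : ℤ) (f g h : ℝ × ℝ → ℝ) : ℝ :=
  ∑' ab : ℕ × ℕ, ∫ x : ℝ, ∫ y : ℝ, ∫ z : ℝ, W k ab.1 ab.2 f g h x y z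

end Pool.Agent.TH9
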