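import Pool.Agent.Helper1.TH9.Defs

set_option autoImplicit false
open MeasureTheory

namespace Pool.Agent.TH9



theorem FS_mono (C C' : ℝ) (h : C ≤ C') (hC : FS C) : FS C' := by
  have ha : ∀ (n : ℕ) (f : ℕ → ℕ → ℝ), 0 ≤ a3 n f := by
    intro n f
    unfold a3
    positivity
  intro n f g k
  refine (hC n f g k).trans (mul_le_mul_of_nonneg_right h ?_)
  have h1 := ha n f
  have h2 := ha n g
  have h3 := ha n k
  linarith

end Pool.Agent.TH9
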