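import Pool.Agent.Helper1.TH9.Defs

set_option autoImplicit false
open MeasureTheory

namespace Pool.Agent.TH9



theorem H_abs (k : ℤ) (a : ℕ) (x : ℝ) : |H k a x| ≤ 1 := by
  unfold H
  rw [Set.indicator_apply, Set.indicator_apply]
  split_ifs <;> norm_num

end Pool.Agent.TH9
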