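import Pool.Agent.Helper1.TH9.Defs

set_option autoImplicit false
open MeasureTheory

namespace Pool.Agent.TH9



theorem H_cell_le (n i : ℕ) (t : ℝ) (h1 : t < 1) (h0 : 0 ≤ t) :
    ((n : ℝ) ≤ (i : ℝ) + t ↔ n ≤ i) := by
  constructor
  · intro h
    by_contra hc
    rw [not_le] at hc
    have h2 : ((i + 1 : ℕ) : ℝ) ≤ (n : ℝ) := by exact_mod_cast hc
    push_cast at h2
    linarith
  · intro h
    have h2 : (n : ℝ) ≤ (i : ℝ) := by exact_mod_cast h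
    linarith

theorem H_cell_lt (n i : ℕ) (t : ℝ) (h1 : t < 1) (h0 : 0 ≤ t) :
    ((i : ℝ) + t < (n : ℝ) ↔ i < n) := by
  rw [← not_le, ← not_le, not_iff_not]
  exact H_cell_le n i t h1 h0

theorem H_cell (N m s : ℕ) (hs : s < N + m) (a i : ℕ) (t : ℝ) (h0 : 0 ≤ t) (h1 : t < 1) :
    H ((N : ℤ) - s) a (((i : ℝ) + t) / 2 ^ m) = chi (2 ^ (N + m - s)) i a := by
  obtain ⟨e, he⟩ : ∃ e : ℕ, N + m - s = e + 1 := ⟨N + m - s - 1, by omega⟩
  have hk : (2:ℝ) ^ ((N : ℤ) - s) = ((2 ^ (N + m - s) : ℕ) : ℝ) / 2 ^ m := by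
    rw [eq_div_iff (by positivity), ← zpow_natCast (2:ℝ) m, ← zpow_add₀ (two_ne_zero)]
    push_cast
    rw [← zpow_natCast (2:ℝ) (N + m - s)]
    congr 1
    omega
  have hk1 : (2:ℝ) ^ ((N : ℤ) - s - 1) = ((2 ^ e : ℕ) : ℝ) / 2 ^ m := by
    rw [eq_div_iff (by positivity), ← zpow_natCast (2:ℝ) m, ← zpow_add₀ (two_ne_zero)]
    push_cast
    rw [← zpow_natCast (2:ℝ) e]
    congr 1
    omega
  have hL : 2 ^ (N + m - s) = 2 * 2 ^ e := by rw [he, pow_succ']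
  have hm : (0:ℝ) < 2 ^ m := by positivity
  have c1 : ((2:ℝ) ^ ((N : ℤ) - s) * (a : ℝ) ≤ ((i : ℝ) + t) / 2 ^ m ↔
      2 ^ (N + m - s) * a ≤ i) := by
    rw [hk, div_mul_eq_mul_div, div_le_div_iff_of_pos_right hm,
      ← H_cell_le (2 ^ (N + m - s) * a) i t h1 h0, Nat.cast_mul]
  have c2 : (((i : ℝ) + t) / 2 ^ m < (2:ℝ) ^ ((N : ℤ) - s) * (a : ℝ) + (2:ℝ) ^ ((N : ℤ) - s - 1) ↔
      i < 2 ^ (N + m - s) * a + 2 ^ e) := by
    rw [hk, hk1, div_mul_eq_mul_div, ← add_div, div_lt_div_iff_of_pos_right hm,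
      ← H_cell_lt (2 ^ (N + m - s) * a + 2 ^ e) i t h1 h0, Nat.cast_add, Nat.cast_mul]
  have c3 : ((2:ℝ) ^ ((N : ℤ) - s) * (a : ℝ) + (2:ℝ) ^ ((N : ℤ) - s - 1) ≤ ((i : ℝ) + t) / 2 ^ m ↔
      2 ^ (N + m - s) * a + 2 ^ e ≤ i) := by
    rw [← not_lt, c2, not_lt]
  have c4 : (((i : ℝ) + t) / 2 ^ m < (2:ℝ) ^ ((N : ℤ) - s) * ((a : ℝ) + 1) ↔
      i < 2 ^ (N + m - s) * a + 2 ^ (N + m - s)) := by
    rw [hk, div_mul_eq_mul_div, div_lt_div_iff_of_pos_right hm,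
      ← H_cell_lt (2 ^ (N + m - s) * a + 2 ^ (N + m - s)) i t h1 h0, Nat.cast_add, Nat.cast_mul]
    rw [mul_add, mul_one]
  unfold H chi sg
  rw [Set.indicator_apply, Set.indicator_apply]
  simp only [Set.mem_Ico, c1, c2, c3, c4]
  have hLpos : 0 < 2 ^ (N + m - s) := by positivity
  have hdm := Nat.div_add_mod i (2 ^ (N + m - s))
  have hml := Nat.mod_lt i hLpos
  by_cases hia : i / 2 ^ (N + m - s) = a
  · rw [if_pos hia]
    rw [hia] at hdm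
    rw [hL] at hdm hml ⊢
    generalize 2 * 2 ^ e * a = q at *
    generalize i % (2 * 2 ^ e) = r at *
    generalize 2 ^ e = w at *
    by_cases h2 : 2 * r < 2 * w
    · rw [if_pos h2, if_pos (by omega), if_neg (by omega)]
      norm_num
    · rw [if_neg h2, if_neg (by omega), if_pos (by omega)]
      norm_num
  · have hne : ¬ (2 ^ (N + m - s) * a ≤ i ∧ i < 2 ^ (N + m - s) * a + 2 ^ (N + m - s)) := by
      rintro ⟨h3, h4⟩
      apply hia
      apply Nat.div_eq_of_lt_le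
      · rw [mul_comm]; exact h3
      · rw [Nat.succ_mul, mul_comm a]; exact h4
    rw [if_neg hia]
    have he2 : 2 ^ e ≤ 2 ^ (N + m - s) := by rw [hL]; omega
    generalize 2 ^ (N + m - s) * a = q at *
    generalize 2 ^ (N + m - s) = w at *
    rw [if_neg (by omega), if_neg (by omega)]
    norm_num

end Pool.Agent.TH9
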