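import Pool.Agent.Helper1.TH9.Defs

set_option autoImplicit false
open MeasureTheory

namespace Pool.Agent.TH9



theorem H_meas (k : ℤ) (a : ℕ) : Measurable (H k a) := by
  unfold H
  exact (measurable_const.indicator measurableSet_Ico).sub
    (measurable_const.indicator measurableSet_Ico)

end Pool.Agent.TH9
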