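import Pool.Agent.Helper1.TH9.Defs

set_option autoImplicit false
open MeasureTheory

namespace Pool.Agent.TH9



theorem H_ne (N s a : ℕ) (x : ℝ) (hx : H ((N : ℤ) - s) a x ≠ 0) :
    (2:ℝ) ^ N * a ≤ 2 ^ s * x ∧ 2 ^ s * x < (2:ℝ) ^ N * (a + 1) := by
  have hp : (0:ℝ) < (2:ℝ) ^ ((N : ℤ) - s - 1) := by positivity
  have h2 : (2:ℝ) ^ ((N : ℤ) - s - 1) ≤ (2:ℝ) ^ ((N : ℤ) - s) :=
    zpow_le_zpow_right₀ (by norm_num) (by omega)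
  have hmem : (2:ℝ) ^ ((N : ℤ) - s) * (a : ℝ) ≤ x ∧ x < (2:ℝ) ^ ((N : ℤ) - s) * ((a : ℝ) + 1) := by
    by_contra hcon
    apply hx
    unfold H
    have n1 : x ∉ Set.Ico ((2:ℝ) ^ ((N : ℤ) - s) * (a : ℝ))
        ((2:ℝ) ^ ((N : ℤ) - s) * (a : ℝ) + (2:ℝ) ^ ((N : ℤ) - s - 1)) := by
      rintro ⟨h3, h4⟩
      exact hcon ⟨h3, by nlinarith⟩
    have n2 : x ∉ Set.Ico ((2:ℝ) ^ ((N : ℤ) - s) * (a : ℝ) + (2:ℝ) ^ ((N : ℤ) - s - 1))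
        ((2:ℝ) ^ ((N : ℤ) - s) * ((a : ℝ) + 1)) := by
      rintro ⟨h3, h4⟩
      exact hcon ⟨by linarith, h4⟩
    rw [Set.indicator_of_notMem n1, Set.indicator_of_notMem n2, sub_zero]
  have hN : (2:ℝ) ^ N = 2 ^ s * (2:ℝ) ^ ((N : ℤ) - s) := by
    rw [zpow_sub₀ (by norm_num), zpow_natCast, zpow_natCast]
    field_simp
  have hs : (0:ℝ) < 2 ^ s := by positivity
  rw [hN]
  constructor
  · rw [mul_assoc]
    exact mul_le_mul_of_nonneg_left hmem.1 hs.le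
  · rw [mul_assoc]
    exact mul_lt_mul_of_pos_left hmem.2 hs

end Pool.Agent.TH9
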