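import Pool.Agent.Helper1.TH9.Defs

set_option autoImplicit false
open MeasureTheory

namespace Pool.Agent.TH9



theorem smp_meas (m : ℕ) (f : ℝ × ℝ → ℝ) (hf : Measurable f) (i j : ℕ) :
    Measurable (fun t : ℝ × ℝ => smp m f t.1 t.2 i j) := by
  unfold smp
  refine hf.comp ?_
  refine Measurable.prodMk ?_ ?_
  · exact (measurable_const.add measurable_fst).div_const _
  · exact (measurable_const.add measurable_snd).div_const _
end Pool.Agent.TH9
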