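import Pool.Agent.Helper1.TH9.Defs
import Pool.Agent.Helper1.TH9.P_smp_meas

set_option autoImplicit false
open MeasureTheory

namespace Pool.Agent.TH9



theorem Lam_int (N n m s : ℕ) (M : ℝ) (f g h : ℝ × ℝ → ℝ) (hf : Good N M f)
    (hg : Good N M g) (hh : Good N M h) :
    IntegrableOn (fun t : ℝ × ℝ × ℝ => |Lam n s (smp m f t.1 t.2.1) (smp m g t.2.1 t.2.2)
        (smp m h t.2.2 t.1)|) (Q3 0) := by
  have hfin : (volume : Measure (ℝ × ℝ × ℝ)) (Q3 0) < ⊤ := by
    unfold Q3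
    rw [Measure.volume_eq_prod, Measure.prod_prod, Measure.volume_eq_prod, Measure.prod_prod,
      Real.volume_Ico]
    simp
  have hM : 0 ≤ M := le_trans (abs_nonneg _) (hf.bdd (0, 0))
  have hsg : ∀ (A i : ℕ), |sg A i| ≤ 1 := by
    intro A i
    unfold sg
    split_ifs <;> simp
  have key : ∀ (c : ℝ) (a1 a2 a3 a4 a5 a6 : ℕ), |c| ≤ 1 →
      Integrable (fun t : ℝ × ℝ × ℝ => c * smp m f t.1 t.2.1 a1 a2 * smp m g t.2.1 t.2.2 a3 a4 *
        smp m h t.2.2 t.1 a5 a6) (volume.restrict (Q3 0)) := by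
    intro c a1 a2 a3 a4 a5 a6 hc
    have m1 : Measurable (fun t : ℝ × ℝ × ℝ => smp m f t.1 t.2.1 a1 a2) :=
      (smp_meas m f hf.meas a1 a2).comp (measurable_fst.prodMk (measurable_fst.comp measurable_snd))
    have m2 : Measurable (fun t : ℝ × ℝ × ℝ => smp m g t.2.1 t.2.2 a3 a4) :=
      (smp_meas m g hg.meas a3 a4).comp
        ((measurable_fst.comp measurable_snd).prodMk (measurable_snd.comp measurable_snd))
    have m3 : Measurable (fun t : ℝ × ℝ × ℝ => smp m h t.2.2 t.1 a5 a6) :=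
      (smp_meas m h hh.meas a5 a6).comp
        ((measurable_snd.comp measurable_snd).prodMk measurable_fst)
    have mm : Measurable (fun t : ℝ × ℝ × ℝ => c * smp m f t.1 t.2.1 a1 a2 *
        smp m g t.2.1 t.2.2 a3 a4 * smp m h t.2.2 t.1 a5 a6) :=
      ((measurable_const.mul m1).mul m2).mul m3
    refine IntegrableOn.of_bound hfin mm.aestronglyMeasurable (1 * M * M * M) ?_
    refine Filter.Eventually.of_forall fun t => ?_
    rw [Real.norm_eq_abs, abs_mul, abs_mul, abs_mul]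
    have b1 : |smp m f t.1 t.2.1 a1 a2| ≤ M := hf.bdd _
    have b2 : |smp m g t.2.1 t.2.2 a3 a4| ≤ M := hg.bdd _
    have b3 : |smp m h t.2.2 t.1 a5 a6| ≤ M := hh.bdd _
    gcongr
  unfold IntegrableOn
  refine Integrable.abs ?_
  unfold Lam
  refine Integrable.const_mul ?_ _
  refine integrable_finset_sum _ fun p _ => ?_
  refine integrable_finset_sum _ fun q _ => ?_
  refine integrable_finset_sum _ fun i _ => ?_
  refine integrable_finset_sum _ fun j _ => ?_
  refine integrable_finset_sum _ fun k _ => ?_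
  refine key _ _ _ _ _ _ _ ?_
  rw [abs_mul, abs_mul]
  have h1 := hsg (2 ^ (n - s)) i
  have h2 := hsg (2 ^ (n - s)) j
  have h3 := hsg (2 ^ (n - s)) k
  calc _ ≤ (1:ℝ) * 1 * 1 := by gcongr
    _ = 1 := by norm_num

end Pool.Agent.TH9
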