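import Pool.Agent.Helper1.TH9.Defs
import Pool.Agent.Helper1.TH9.P_H_ne

set_option autoImplicit false
open MeasureTheory

namespace Pool.Agent.TH9



theorem T_eq_aux (N s a : ℕ) (x : ℝ) (ha : 2 ^ s ≤ a) (hx : H ((N : ℤ) - s) a x ≠ 0) :
    (2:ℝ) ^ N ≤ x := by
  have h := (H_ne N s a x hx).1
  have ha' : (2:ℝ) ^ s ≤ a := by exact_mod_cast ha
  have h2 : (0:ℝ) < 2 ^ s := by positivity
  have h3 : (0:ℝ) < 2 ^ N := by positivity
  have h4 : (2:ℝ) ^ s * 2 ^ N ≤ 2 ^ s * x := by nlinarith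
  exact le_of_mul_le_mul_left h4 h2

theorem T_eq (N s : ℕ) (M : ℝ) (f g h : ℝ × ℝ → ℝ) (hf : Good N M f) (hg : Good N M g)
    (hh : Good N M h) :
    T ((N : ℤ) - s) f g h = ∑ a ∈ Finset.range (2 ^ s), ∑ b ∈ Finset.range (2 ^ s),
      ∫ x : ℝ, ∫ y : ℝ, ∫ z : ℝ, W ((N : ℤ) - s) a b f g h x y z := by
  unfold T
  rw [tsum_eq_sum (s := Finset.range (2 ^ s) ×ˢ Finset.range (2 ^ s)), Finset.sum_product]
  rintro ⟨a, b⟩ hab
  have hW : ∀ x y z : ℝ, W ((N : ℤ) - s) a b f g h x y z = 0 := by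
    intro x y z
    by_contra hne
    unfold W at hne
    have h1 : f (x, y) ≠ 0 := by
      intro h0; apply hne; rw [h0]; ring
    have h2 : H ((N : ℤ) - s) a x ≠ 0 := by
      intro h0; apply hne; rw [h0]; ring
    have h3 : H ((N : ℤ) - s) b y ≠ 0 := by
      intro h0; apply hne; rw [h0]; ring
    have hs := hf.supp (x, y) h1
    simp only at hs
    rw [Finset.mem_product, Finset.mem_range, Finset.mem_range, not_and_or, not_lt, not_lt] at hab
    rcases hab with hab | hab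
    · have := T_eq_aux N s a x hab h2
      have h5 := lt_of_abs_lt hs.1
      linarith
    · have := T_eq_aux N s b y hab h3
      have h5 := lt_of_abs_lt hs.2
      linarith
  simp only [hW, integral_zero]

end Pool.Agent.TH9
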