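import Pool.Agent.Helper1.TH9.Defs

set_option autoImplicit false
open MeasureTheory

namespace Pool.Agent.TH9



theorem T_smul (k : ℤ) (f g h : ℝ × ℝ → ℝ) (t u v : ℝ) :
    T k (fun p => t * f p) (fun p => u * g p) (fun p => v * h p) = t * u * v * T k f g h := by
  unfold T
  rw [← tsum_mul_left]
  refine tsum_congr fun ab => ?_
  rw [← integral_const_mul]
  refine integral_congr_ae (Filter.Eventually.of_forall fun x => ?_)
  beta_reduce
  rw [← integral_const_mul]
  refine integral_congr_ae (Filter.Eventually.of_forall fun y => ?_)
  beta_reduce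
  rw [← integral_const_mul]
  refine integral_congr_ae (Filter.Eventually.of_forall fun z => ?_)
  beta_reduce
  unfold W
  ring

end Pool.Agent.TH9
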