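import Pool.Agent.Helper1.TH9.Defs
import Pool.Agent.Helper1.TH9.P_H_meas
import Pool.Agent.Helper1.TH9.P_H_abs

set_option autoImplicit false
open MeasureTheory

namespace Pool.Agent.TH9



theorem W_int (N : ℕ) (k : ℤ) (M : ℝ) (f g h : ℝ × ℝ → ℝ) (hf : Good N M f) (hg : Good N M g)
    (hh : Good N M h) (a b : ℕ) :
    IntegrableOn (fun p : ℝ × ℝ × ℝ => W k a b f g h p.1 p.2.1 p.2.2) (Q3 N) := by
  have hM0 : 0 ≤ M := le_trans (abs_nonneg _) (hf.bdd (0, 0))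
  have hmeas : Measurable (fun p : ℝ × ℝ × ℝ => W k a b f g h p.1 p.2.1 p.2.2) := by
    unfold W
    have h1 : Measurable (fun p : ℝ × ℝ × ℝ => f (p.1, p.2.1)) :=
      hf.meas.comp (measurable_fst.prodMk (measurable_fst.comp measurable_snd))
    have h2 : Measurable (fun p : ℝ × ℝ × ℝ => g (p.2.1, p.2.2)) :=
      hg.meas.comp measurable_snd
    have h3 : Measurable (fun p : ℝ × ℝ × ℝ => h (p.2.2, p.1)) :=
      hh.meas.comp ((measurable_snd.comp measurable_snd).prodMk measurable_fst)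
    have h4 : Measurable (fun p : ℝ × ℝ × ℝ => H k a p.1) := (H_meas k a).comp measurable_fst
    have h5 : Measurable (fun p : ℝ × ℝ × ℝ => H k b p.2.1) :=
      (H_meas k b).comp (measurable_fst.comp measurable_snd)
    have h6 : Measurable (fun p : ℝ × ℝ × ℝ => H k (a ^^^ b) p.2.2) :=
      (H_meas k (a ^^^ b)).comp (measurable_snd.comp measurable_snd)
    exact ((((h1.mul h2).mul h3).mul h4).mul h5).mul h6
  have hfin : volume (Q3 N) < ⊤ := by
    have hb : Bornology.IsBounded (Q3 N) :=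
      (Metric.isBounded_Ico _ _).prod ((Metric.isBounded_Ico _ _).prod (Metric.isBounded_Ico _ _))
    exact hb.measure_lt_top
  refine Measure.integrableOn_of_bounded (M := M * M * M) hfin.ne hmeas.aestronglyMeasurable ?_
  refine Filter.Eventually.of_forall ?_
  intro p
  unfold W
  rw [Real.norm_eq_abs, abs_mul, abs_mul, abs_mul, abs_mul, abs_mul]
  have e1 := hf.bdd (p.1, p.2.1)
  have e2 := hg.bdd (p.2.1, p.2.2)
  have e3 := hh.bdd (p.2.2, p.1)
  have e4 := H_abs k a p.1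
  have e5 := H_abs k b p.2.1
  have e6 := H_abs k (a ^^^ b) p.2.2
  have q1 : |f (p.1, p.2.1)| * |g (p.2.1, p.2.2)| ≤ M * M :=
    mul_le_mul e1 e2 (abs_nonneg _) hM0
  have q2 : |f (p.1, p.2.1)| * |g (p.2.1, p.2.2)| * |h (p.2.2, p.1)| ≤ M * M * M :=
    mul_le_mul q1 e3 (abs_nonneg _) (mul_nonneg hM0 hM0)
  have hMMM : 0 ≤ M * M * M := mul_nonneg (mul_nonneg hM0 hM0) hM0
  have q3 : |f (p.1, p.2.1)| * |g (p.2.1, p.2.2)| * |h (p.2.2, p.1)| * |H k a p.1| ≤ M * M * M * 1 :=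
    mul_le_mul q2 e4 (abs_nonneg _) hMMM
  have q4 : |f (p.1, p.2.1)| * |g (p.2.1, p.2.2)| * |h (p.2.2, p.1)| * |H k a p.1| * |H k b p.2.1|
      ≤ M * M * M * 1 * 1 :=
    mul_le_mul q3 e5 (abs_nonneg _) (by linarith)
  have q5 : |f (p.1, p.2.1)| * |g (p.2.1, p.2.2)| * |h (p.2.2, p.1)| * |H k a p.1| * |H k b p.2.1| *
      |H k (a ^^^ b) p.2.2| ≤ M * M * M * 1 * 1 * 1 :=
    mul_le_mul q4 e6 (abs_nonneg _) (by linarith)
  linarith

end Pool.Agent.TH9
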