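import Pool.Agent.Helper1.TH9.Defs

set_option autoImplicit false
open MeasureTheory

namespace Pool.Agent.TH9



/-- the cell `(i, j)` of side `2^-m` -/
def cell2 (m : ℕ) (ij : ℕ × ℕ) : Set (ℝ × ℝ) :=
  (fun p : ℝ × ℝ => (p.1 * 2 ^ m, p.2 * 2 ^ m)) ⁻¹'
    (Set.Ico (ij.1 : ℝ) (ij.1 + 1) ×ˢ Set.Ico (ij.2 : ℝ) (ij.2 + 1))

theorem mem_cell2 (m : ℕ) (ij : ℕ × ℕ) (p : ℝ × ℝ) : p ∈ cell2 m ij ↔
    ((ij.1 : ℝ) ≤ p.1 * 2 ^ m ∧ p.1 * 2 ^ m < ij.1 + 1) ∧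
      ((ij.2 : ℝ) ≤ p.2 * 2 ^ m ∧ p.2 * 2 ^ m < ij.2 + 1) := Iff.rfl

theorem cell2_meas (m : ℕ) (ij : ℕ × ℕ) : MeasurableSet (cell2 m ij) := by
  refine measurableSet_preimage ?_ (measurableSet_Ico.prod measurableSet_Ico)
  fun_prop

theorem cell2_eq_aux (x : ℝ) (i i' : ℕ) (h1 : (i:ℝ) ≤ x) (h2 : x < i' + 1) : i ≤ i' := by
  have h : (i:ℝ) < i' + 1 := lt_of_le_of_lt h1 h2
  have : i < i' + 1 := by exact_mod_cast h
  omega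

theorem cell2_disj (m : ℕ) (s : Set (ℕ × ℕ)) : s.PairwiseDisjoint (cell2 m) := by
  intro a _ b _ hab
  rw [Function.onFun, Set.disjoint_left]
  intro p hpa hpb
  rw [mem_cell2] at hpa hpb
  apply hab
  refine Prod.ext ?_ ?_
  · exact le_antisymm (cell2_eq_aux _ _ _ hpa.1.1 hpb.1.2) (cell2_eq_aux _ _ _ hpb.1.1 hpa.1.2)
  · exact le_antisymm (cell2_eq_aux _ _ _ hpa.2.1 hpb.2.2) (cell2_eq_aux _ _ _ hpb.2.1 hpa.2.2)

theorem cell2_one (N m : ℕ) (x : ℝ) : x ∈ Set.Ico (0:ℝ) (2 ^ N) ↔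
    ∃ i ∈ Finset.range (2 ^ (N + m)), (i:ℝ) ≤ x * 2 ^ m ∧ x * 2 ^ m < i + 1 := by
  have h2m : (0:ℝ) < 2 ^ m := by positivity
  constructor
  · rintro ⟨h0, h1⟩
    refine ⟨⌊x * 2 ^ m⌋₊, ?_, Nat.floor_le (by positivity), Nat.lt_floor_add_one _⟩
    rw [Finset.mem_range, Nat.floor_lt (by positivity)]
    push_cast
    rw [pow_add]
    exact mul_lt_mul_of_pos_right h1 h2m
  · rintro ⟨i, hi, h0, h1⟩
    rw [Finset.mem_range] at hi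
    constructor
    · have h3 : (0:ℝ) ≤ x * 2 ^ m := le_trans (Nat.cast_nonneg i) h0
      exact nonneg_of_mul_nonneg_left h3 h2m
    · have h4 : ((i + 1 : ℕ) : ℝ) ≤ ((2 ^ (N + m) : ℕ) : ℝ) := by exact_mod_cast hi
      push_cast at h4
      rw [pow_add] at h4
      have h5 : x * 2 ^ m < 2 ^ N * 2 ^ m := lt_of_lt_of_le h1 h4
      exact lt_of_mul_lt_mul_right h5 h2m.le

theorem Q2_eq_cells (N m : ℕ) : Q2 N =
    ⋃ ij ∈ Finset.range (2 ^ (N + m)) ×ˢ Finset.range (2 ^ (N + m)), cell2 m ij := by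
  ext p
  rw [Q2, Set.mem_prod, cell2_one N m, cell2_one N m]
  simp only [Set.mem_iUnion, Finset.mem_product, exists_prop]
  constructor
  · rintro ⟨⟨i, hi, h1⟩, ⟨j, hj, h2⟩⟩
    exact ⟨(i, j), ⟨hi, hj⟩, (mem_cell2 m (i, j) p).2 ⟨h1, h2⟩⟩
  · rintro ⟨ij, ⟨hi, hj⟩, hp⟩
    rw [mem_cell2] at hp
    exact ⟨⟨ij.1, hi, hp.1⟩, ⟨ij.2, hj, hp.2⟩⟩

theorem cell2_int (m : ℕ) (ij : ℕ × ℕ) (G : ℝ × ℝ → ℝ) :
    ∫ p in cell2 m ij, G p = (4:ℝ)⁻¹ ^ m *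
      ∫ t in Q2 0, G (((ij.1 : ℝ) + t.1) / 2 ^ m, ((ij.2 : ℝ) + t.2) / 2 ^ m) := by
  have h2m : (2:ℝ) ^ m ≠ 0 := by positivity
  have hQ0 : MeasurableSet (Q2 0) := measurableSet_Ico.prod measurableSet_Ico
  rw [← integral_indicator (cell2_meas m ij), ← integral_indicator hQ0]
  set F : ℝ × ℝ → ℝ := (cell2 m ij).indicator G with hF
  have h1 : ∀ t : ℝ × ℝ, (Q2 0).indicator
      (fun t : ℝ × ℝ => G (((ij.1 : ℝ) + t.1) / 2 ^ m, ((ij.2 : ℝ) + t.2) / 2 ^ m)) t =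
      F (((2:ℝ) ^ m)⁻¹ • ((((ij.1 : ℝ), (ij.2 : ℝ)) : ℝ × ℝ) + t)) := by
    intro t
    have e : ((2:ℝ) ^ m)⁻¹ • ((((ij.1 : ℝ), (ij.2 : ℝ)) : ℝ × ℝ) + t) =
        (((ij.1 : ℝ) + t.1) / 2 ^ m, ((ij.2 : ℝ) + t.2) / 2 ^ m) := by
      ext
      · simp [div_eq_inv_mul]; ring
      · simp [div_eq_inv_mul]; ring
    have hmem : ((((ij.1 : ℝ) + t.1) / 2 ^ m, ((ij.2 : ℝ) + t.2) / 2 ^ m) : ℝ × ℝ) ∈ cell2 m ij ↔
        t ∈ Q2 0 := by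
      rw [mem_cell2]
      simp only
      rw [div_mul_cancel₀ _ h2m, div_mul_cancel₀ _ h2m, Q2, Set.mem_prod, Set.mem_Ico, Set.mem_Ico,
        pow_zero]
      constructor
      · rintro ⟨⟨a1, a2⟩, a3, a4⟩
        exact ⟨⟨by linarith, by linarith⟩, ⟨by linarith, by linarith⟩⟩
      · rintro ⟨⟨a1, a2⟩, a3, a4⟩
        exact ⟨⟨by linarith, by linarith⟩, ⟨by linarith, by linarith⟩⟩
    rw [e, hF]
    by_cases ht : t ∈ Q2 0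
    · rw [Set.indicator_of_mem ht, Set.indicator_of_mem (hmem.2 ht)]
    · rw [Set.indicator_of_notMem ht, Set.indicator_of_notMem (fun h => ht (hmem.1 h))]
  have h2 : ∫ t : ℝ × ℝ, (Q2 0).indicator
      (fun t : ℝ × ℝ => G (((ij.1 : ℝ) + t.1) / 2 ^ m, ((ij.2 : ℝ) + t.2) / 2 ^ m)) t =
      4 ^ m * ∫ p : ℝ × ℝ, F p := by
    rw [integral_congr_ae (Filter.Eventually.of_forall h1)]
    rw [integral_add_left_eq_self (μ := (volume : Measure (ℝ × ℝ)))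
      (fun t : ℝ × ℝ => F (((2:ℝ) ^ m)⁻¹ • t)) (((ij.1 : ℝ), (ij.2 : ℝ)) : ℝ × ℝ)]
    rw [Measure.integral_comp_smul]
    have e : |((((2:ℝ) ^ m)⁻¹) ^ (Module.finrank ℝ (ℝ × ℝ)))⁻¹| = 4 ^ m := by
      rw [Module.finrank_prod, Module.finrank_self, abs_of_pos (by positivity), inv_pow, inv_inv,
        ← pow_mul, mul_comm, pow_mul]
      norm_num
    rw [e, smul_eq_mul]
  rw [h2, ← mul_assoc, ← mul_pow]
  norm_num

theorem cells2 (N m : ℕ) (G : ℝ × ℝ → ℝ) (hG : IntegrableOn G (Q2 N)) :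
    ∫ p in Q2 N, G p = (4:ℝ)⁻¹ ^ m * ∑ i ∈ Finset.range (2 ^ (N + m)),
      ∑ j ∈ Finset.range (2 ^ (N + m)),
        ∫ t in Q2 0, G (((i : ℝ) + t.1) / 2 ^ m, ((j : ℝ) + t.2) / 2 ^ m) := by
  have hsub : ∀ ij ∈ Finset.range (2 ^ (N + m)) ×ˢ Finset.range (2 ^ (N + m)),
      cell2 m ij ⊆ Q2 N := by
    intro ij hij
    rw [Q2_eq_cells N m]
    intro p hp
    simp only [Set.mem_iUnion, exists_prop]
    exact ⟨ij, hij, hp⟩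
  have h1 : ∫ p in Q2 N, G p =
      ∑ ij ∈ Finset.range (2 ^ (N + m)) ×ˢ Finset.range (2 ^ (N + m)),
        ∫ p in cell2 m ij, G p := by
    conv_lhs => rw [Q2_eq_cells N m]
    exact integral_biUnion_finset _ (fun ij _ => cell2_meas m ij) (cell2_disj m _)
      (fun ij hij => hG.mono_set (hsub ij hij))
  rw [h1, Finset.mul_sum, Finset.sum_product]
  refine Finset.sum_congr rfl fun i _ => ?_
  rw [Finset.mul_sum]
  refine Finset.sum_congr rfl fun j _ => ?_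
  exact cell2_int m (i, j) G

end Pool.Agent.TH9
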