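import Pool.Agent.Helper1.TH9.Defs
import Pool.Agent.Helper1.TH9.P_cells2
import Pool.Agent.Helper1.TH9.P_smp_meas

set_option autoImplicit false
open MeasureTheory

namespace Pool.Agent.TH9



theorem a3_cells_vol (N : ℕ) : volume (Q2 N) ≠ ⊤ := by
  unfold Q2
  rw [Measure.volume_eq_prod, Measure.prod_prod, Real.volume_Ico]
  exact ENNReal.mul_ne_top ENNReal.ofReal_ne_top ENNReal.ofReal_ne_top

theorem a3_cells_int (N : ℕ) (M : ℝ) (F : ℝ × ℝ → ℝ) (hF : Measurable F) (hb : ∀ p, |F p| ≤ M) :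
    IntegrableOn (fun p => |F p| ^ 3) (Q2 N) := by
  refine Measure.integrableOn_of_bounded (M := M ^ 3) (a3_cells_vol N)
    (hF.abs.pow_const 3).aestronglyMeasurable (Filter.Eventually.of_forall fun p => ?_)
  rw [Real.norm_eq_abs, abs_pow, abs_abs]
  exact pow_le_pow_left₀ (abs_nonneg _) (hb p) 3

theorem a3_cells (N m : ℕ) (M : ℝ) (f : ℝ × ℝ → ℝ) (hf : Good N M f) :
    4 ^ N * ∫ t in Q2 0, a3 (N + m) (smp m f t.1 t.2) = ∫ p in Q2 N, |f p| ^ 3 := by
  rw [cells2 N m (fun p => |f p| ^ 3) (a3_cells_int N M f hf.meas hf.bdd)]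
  have hI : ∀ i j : ℕ, IntegrableOn (fun t : ℝ × ℝ => |smp m f t.1 t.2 i j| ^ 3) (Q2 0) :=
    fun i j => a3_cells_int 0 M (fun t : ℝ × ℝ => smp m f t.1 t.2 i j)
      (smp_meas m f hf.meas i j) (fun p => hf.bdd _)
  have h1 : ∫ t in Q2 0, a3 (N + m) (smp m f t.1 t.2) = (4:ℝ)⁻¹ ^ (N + m) *
      ∑ i ∈ Finset.range (2 ^ (N + m)), ∑ j ∈ Finset.range (2 ^ (N + m)),
        ∫ t in Q2 0, |smp m f t.1 t.2 i j| ^ 3 := by
    unfold a3
    rw [integral_const_mul, integral_finsetSum _ (fun i _ => ?_)]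
    · congr 1
      apply Finset.sum_congr rfl
      intro i _
      rw [integral_finsetSum _ (fun j _ => hI i j)]
    · exact integrable_finsetSum _ (fun j _ => hI i j)
  rw [h1, pow_add, ← mul_assoc, ← mul_assoc, inv_pow, mul_inv_cancel₀ (by positivity), one_mul]
  rfl

end Pool.Agent.TH9
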