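import Pool.Agent.Helper1.TH9.Defs
import Pool.Agent.Helper1.TH9.P_smp_meas

set_option autoImplicit false
open MeasureTheory

namespace Pool.Agent.TH9



theorem a3_int_aux (n m : ℕ) (M : ℝ) (f : ℝ × ℝ → ℝ) (hm : Measurable f) (hb : ∀ p, |f p| ≤ M)
    (φ : ℝ × ℝ × ℝ → ℝ × ℝ) (hφ : Measurable φ) :
    IntegrableOn (fun t : ℝ × ℝ × ℝ => a3 n (smp m f (φ t).1 (φ t).2)) (Q3 0) := by
  have hfin : volume (Q3 0) ≠ ⊤ := by
    have hbd : Bornology.IsBounded (Q3 0) := by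
      unfold Q3
      exact (Metric.isBounded_Ico _ _).prod ((Metric.isBounded_Ico _ _).prod (Metric.isBounded_Ico _ _))
    exact hbd.measure_lt_top.ne
  refine Measure.integrableOn_of_bounded
    (M := (4:ℝ)⁻¹ ^ n * ∑ i ∈ Finset.range (2 ^ n), ∑ j ∈ Finset.range (2 ^ n), M ^ 3) hfin ?_ ?_
  · apply Measurable.aestronglyMeasurable
    unfold a3
    refine Measurable.const_mul ?_ _
    refine Finset.measurable_sum _ fun i _ => Finset.measurable_sum _ fun j _ => ?_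
    exact (continuous_abs.measurable.comp ((smp_meas m f hm i j).comp hφ)).pow_const 3
  · refine Filter.Eventually.of_forall fun t => ?_
    unfold a3
    have h0 : 0 ≤ (4:ℝ)⁻¹ ^ n * ∑ i ∈ Finset.range (2 ^ n), ∑ j ∈ Finset.range (2 ^ n),
        |smp m f (φ t).1 (φ t).2 i j| ^ 3 := by positivity
    rw [Real.norm_eq_abs, abs_of_nonneg h0]
    refine mul_le_mul_of_nonneg_left ?_ (by positivity)
    refine Finset.sum_le_sum fun i _ => Finset.sum_le_sum fun j _ => ?_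
    exact pow_le_pow_left₀ (abs_nonneg _) (hb _) 3

theorem a3_int (N n m : ℕ) (M : ℝ) (f : ℝ × ℝ → ℝ) (hf : Good N M f) :
    IntegrableOn (fun t : ℝ × ℝ × ℝ => a3 n (smp m f t.1 t.2.1)) (Q3 0) ∧
    IntegrableOn (fun t : ℝ × ℝ × ℝ => a3 n (smp m f t.2.1 t.2.2)) (Q3 0) ∧
    IntegrableOn (fun t : ℝ × ℝ × ℝ => a3 n (smp m f t.2.2 t.1)) (Q3 0) := by
  refine ⟨?_, ?_, ?_⟩
  · exact a3_int_aux n m M f hf.meas hf.bdd (fun t => (t.1, t.2.1)) (by fun_prop)
  · exact a3_int_aux n m M f hf.meas hf.bdd (fun t => (t.2.1, t.2.2)) (by fun_prop)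
  · exact a3_int_aux n m M f hf.meas hf.bdd (fun t => (t.2.2, t.1)) (by fun_prop)

end Pool.Agent.TH9
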