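import Pool.Agent.Helper1.TH9.Defs

set_option autoImplicit false
open MeasureTheory

namespace Pool.Agent.TH9



theorem cells3_haar2 : (volume : Measure (ℝ × ℝ)).IsAddHaarMeasure :=
  inferInstanceAs (((volume : Measure ℝ).prod (volume : Measure ℝ)).IsAddHaarMeasure)

theorem cells3_haar3 : (volume : Measure (ℝ × ℝ × ℝ)).IsAddHaarMeasure := by
  have := cells3_haar2
  exact inferInstanceAs (((volume : Measure ℝ).prod (volume : Measure (ℝ × ℝ))).IsAddHaarMeasure)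

/-- affine map onto the unit grid -/
def cells3_psi (m : ℕ) (c : ℕ × ℕ × ℕ) (p : ℝ × ℝ × ℝ) : ℝ × ℝ × ℝ :=
  (2 ^ m * p.1 - c.1, 2 ^ m * p.2.1 - c.2.1, 2 ^ m * p.2.2 - c.2.2)

/-- cells -/
def cells3_cell (m : ℕ) (c : ℕ × ℕ × ℕ) : Set (ℝ × ℝ × ℝ) := cells3_psi m c ⁻¹' Q3 0

theorem cells3_Q3meas (N : ℕ) : MeasurableSet (Q3 N) :=
  measurableSet_Ico.prod (measurableSet_Ico.prod measurableSet_Ico)

theorem cells3_meas (m : ℕ) (c : ℕ × ℕ × ℕ) : MeasurableSet (cells3_cell m c) := by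
  have h : Measurable (cells3_psi m c) := by
    unfold cells3_psi
    fun_prop
  exact h (cells3_Q3meas 0)

theorem cells3_mem (m : ℕ) (c : ℕ × ℕ × ℕ) (t : ℝ × ℝ × ℝ) :
    ((((c.1 : ℝ) + t.1) / 2 ^ m, ((c.2.1 : ℝ) + t.2.1) / 2 ^ m, ((c.2.2 : ℝ) + t.2.2) / 2 ^ m) :
      ℝ × ℝ × ℝ) ∈ cells3_cell m c ↔ t ∈ Q3 0 := by
  have h : cells3_psi m c (((c.1 : ℝ) + t.1) / 2 ^ m, ((c.2.1 : ℝ) + t.2.1) / 2 ^ m,
      ((c.2.2 : ℝ) + t.2.2) / 2 ^ m) = t := by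
    have h2 : (2 : ℝ) ^ m ≠ 0 := by positivity
    unfold cells3_psi
    refine Prod.ext ?_ (Prod.ext ?_ ?_) <;> simp only <;> field_simp <;> ring
  unfold cells3_cell
  rw [Set.mem_preimage, h]

theorem cells3_one (m : ℕ) (c : ℕ × ℕ × ℕ) (G : ℝ × ℝ × ℝ → ℝ)
    (hG : IntegrableOn G (cells3_cell m c)) :
    IntegrableOn (fun t : ℝ × ℝ × ℝ =>
      G (((c.1 : ℝ) + t.1) / 2 ^ m, ((c.2.1 : ℝ) + t.2.1) / 2 ^ m,
        ((c.2.2 : ℝ) + t.2.2) / 2 ^ m)) (Q3 0) ∧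
    ∫ p in cells3_cell m c, G p = (8:ℝ)⁻¹ ^ m * ∫ t in Q3 0,
      G (((c.1 : ℝ) + t.1) / 2 ^ m, ((c.2.1 : ℝ) + t.2.1) / 2 ^ m,
        ((c.2.2 : ℝ) + t.2.2) / 2 ^ m) := by
  have haar := cells3_haar3
  set F : ℝ × ℝ × ℝ → ℝ := (cells3_cell m c).indicator G with hF
  have hFi : Integrable F := (integrable_indicator_iff (cells3_meas m c)).2 hG
  have hR : ((2 : ℝ) ^ m)⁻¹ ≠ 0 := by positivity
  set g : ℝ × ℝ × ℝ := ((c.1 : ℝ), (c.2.1 : ℝ), (c.2.2 : ℝ)) with hg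
  have hφ : ∀ t : ℝ × ℝ × ℝ, ((2 : ℝ) ^ m)⁻¹ • (g + t) =
      (((c.1 : ℝ) + t.1) / 2 ^ m, ((c.2.1 : ℝ) + t.2.1) / 2 ^ m,
        ((c.2.2 : ℝ) + t.2.2) / 2 ^ m) := by
    intro t
    refine Prod.ext ?_ (Prod.ext ?_ ?_) <;>
      simp only [hg, Prod.smul_fst, Prod.smul_snd, Prod.fst_add, Prod.snd_add, smul_eq_mul] <;>
      rw [div_eq_inv_mul]
  have hind : (fun t => F (((2 : ℝ) ^ m)⁻¹ • (g + t))) =
      (Q3 0).indicator (fun t : ℝ × ℝ × ℝ =>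
        G (((c.1 : ℝ) + t.1) / 2 ^ m, ((c.2.1 : ℝ) + t.2.1) / 2 ^ m,
          ((c.2.2 : ℝ) + t.2.2) / 2 ^ m)) := by
    funext t
    rw [hφ t]
    by_cases ht : t ∈ Q3 0
    · rw [Set.indicator_of_mem ht, hF, Set.indicator_of_mem ((cells3_mem m c t).2 ht)]
    · rw [Set.indicator_of_notMem ht, hF,
        Set.indicator_of_notMem (fun h => ht ((cells3_mem m c t).1 h))]
  have h1 : Integrable (fun t => F (((2 : ℝ) ^ m)⁻¹ • (g + t))) :=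
    (hFi.comp_smul hR).comp_add_left g
  constructor
  · rw [hind, integrable_indicator_iff (cells3_Q3meas 0)] at h1
    exact h1
  · have h2 : ∫ t, F (((2 : ℝ) ^ m)⁻¹ • (g + t)) = 8 ^ m * ∫ p, F p := by
      rw [integral_add_left_eq_self (fun t => F (((2 : ℝ) ^ m)⁻¹ • t)) g,
        Measure.integral_comp_smul]
      have h3 : Module.finrank ℝ (ℝ × ℝ × ℝ) = 3 := by simp
      rw [h3, smul_eq_mul]
      congr 1
      rw [inv_pow, inv_inv, abs_of_pos (by positivity), ← pow_mul, mul_comm, pow_mul]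
      norm_num
    rw [hind, integral_indicator (cells3_Q3meas 0), hF, integral_indicator (cells3_meas m c)] at h2
    rw [h2, ← mul_assoc, ← mul_pow]
    norm_num

theorem cells3_1d (N m : ℕ) (x : ℝ) : x ∈ Set.Ico (0:ℝ) (2 ^ N) ↔
    ∃ i ∈ Finset.range (2 ^ (N + m)), 2 ^ m * x - (i : ℝ) ∈ Set.Ico (0:ℝ) (2 ^ 0) := by
  have h2 : (0 : ℝ) < 2 ^ m := by positivity
  constructor
  · rintro ⟨h0, h1⟩
    have h3 : 0 ≤ 2 ^ m * x := mul_nonneg h2.le h0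
    refine ⟨⌊2 ^ m * x⌋₊, ?_, ?_, ?_⟩
    · rw [Finset.mem_range, Nat.floor_lt h3]
      push_cast
      rw [pow_add, mul_comm]
      exact mul_lt_mul_of_pos_right h1 h2
    · have := Nat.floor_le h3
      linarith
    · have := Nat.lt_floor_add_one (2 ^ m * x)
      rw [pow_zero]
      linarith
  · rintro ⟨i, hi, h0, h1⟩
    rw [Finset.mem_range] at hi
    have hi0 : (0 : ℝ) ≤ i := Nat.cast_nonneg i
    have hi1 : (i : ℝ) + 1 ≤ 2 ^ (N + m) := by exact_mod_cast hi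
    rw [pow_zero] at h1
    constructor
    · by_contra hx
      push Not at hx
      have := mul_neg_of_pos_of_neg h2 hx
      linarith
    · rw [pow_add] at hi1
      have h3 : 2 ^ m * x < 2 ^ m * 2 ^ N := by linarith
      exact lt_of_mul_lt_mul_left h3 h2.le

theorem cells3_uniq (m i i' : ℕ) (x : ℝ) (h : 2 ^ m * x - (i : ℝ) ∈ Set.Ico (0:ℝ) (2 ^ 0))
    (h' : 2 ^ m * x - (i' : ℝ) ∈ Set.Ico (0:ℝ) (2 ^ 0)) : i = i' := by
  rw [pow_zero] at h h'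
  have h1 : (i : ℝ) < i' + 1 := by linarith [h.1, h'.2]
  have h2 : (i' : ℝ) < i + 1 := by linarith [h'.1, h.2]
  have h3 : i < i' + 1 := by exact_mod_cast h1
  have h4 : i' < i + 1 := by exact_mod_cast h2
  omega

theorem cells3 (N m : ℕ) (G : ℝ × ℝ × ℝ → ℝ) (hG : IntegrableOn G (Q3 N)) :
    (∀ i ∈ Finset.range (2 ^ (N + m)), ∀ j ∈ Finset.range (2 ^ (N + m)),
      ∀ l ∈ Finset.range (2 ^ (N + m)),
        IntegrableOn (fun t : ℝ × ℝ × ℝ =>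
          G (((i : ℝ) + t.1) / 2 ^ m, ((j : ℝ) + t.2.1) / 2 ^ m, ((l : ℝ) + t.2.2) / 2 ^ m))
          (Q3 0)) ∧
    ∫ p in Q3 N, G p = (8:ℝ)⁻¹ ^ m * ∑ i ∈ Finset.range (2 ^ (N + m)),
      ∑ j ∈ Finset.range (2 ^ (N + m)), ∑ l ∈ Finset.range (2 ^ (N + m)),
        ∫ t in Q3 0,
          G (((i : ℝ) + t.1) / 2 ^ m, ((j : ℝ) + t.2.1) / 2 ^ m, ((l : ℝ) + t.2.2) / 2 ^ m) := by
  set R := Finset.range (2 ^ (N + m)) with hR
  have hsub : ∀ c : ℕ × ℕ × ℕ, c ∈ R ×ˢ (R ×ˢ R) → cells3_cell m c ⊆ Q3 N := by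
    intro c hc p hp
    rw [Finset.mem_product, Finset.mem_product] at hc
    obtain ⟨h1, h2, h3⟩ := hp
    exact ⟨(cells3_1d N m _).2 ⟨c.1, hc.1, h1⟩, (cells3_1d N m _).2 ⟨c.2.1, hc.2.1, h2⟩,
      (cells3_1d N m _).2 ⟨c.2.2, hc.2.2, h3⟩⟩
  have hone : ∀ c : ℕ × ℕ × ℕ, c ∈ R ×ˢ (R ×ˢ R) → _ := fun c hc =>
    cells3_one m c G (hG.mono_set (hsub c hc))
  have hunion : Q3 N = ⋃ c ∈ R ×ˢ (R ×ˢ R), cells3_cell m c := by
    apply Set.Subset.antisymm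
    · rintro p ⟨h1, h2, h3⟩
      obtain ⟨i, hi, hi'⟩ := (cells3_1d N m _).1 h1
      obtain ⟨j, hj, hj'⟩ := (cells3_1d N m _).1 h2
      obtain ⟨l, hl, hl'⟩ := (cells3_1d N m _).1 h3
      simp only [Set.mem_iUnion]
      exact ⟨(i, j, l), Finset.mem_product.2 ⟨hi, Finset.mem_product.2 ⟨hj, hl⟩⟩, hi', hj', hl'⟩
    · intro p hp
      simp only [Set.mem_iUnion] at hp
      obtain ⟨c, hc, hp⟩ := hp
      exact hsub c hc hp
  have hdisj : (↑(R ×ˢ (R ×ˢ R)) : Set (ℕ × ℕ × ℕ)).Pairwise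
      (Function.onFun Disjoint (cells3_cell m)) := by
    intro c _ c' _ hne
    rw [Function.onFun, Set.disjoint_left]
    rintro p ⟨h1, h2, h3⟩ ⟨h1', h2', h3'⟩
    exact hne (Prod.ext (cells3_uniq m _ _ _ h1 h1')
      (Prod.ext (cells3_uniq m _ _ _ h2 h2') (cells3_uniq m _ _ _ h3 h3')))
  constructor
  · intro i hi j hj l hl
    exact (hone (i, j, l) (Finset.mem_product.2 ⟨hi, Finset.mem_product.2 ⟨hj, hl⟩⟩)).1
  · conv_lhs => rw [hunion]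
    rw [integral_biUnion_finset _ (fun c _ => cells3_meas m c) hdisj
      (fun c hc => hG.mono_set (hsub c hc))]
    rw [Finset.sum_congr rfl fun c hc => (hone c hc).2, ← Finset.mul_sum, Finset.sum_product]
    congr 1
    refine Finset.sum_congr rfl fun i _ => ?_
    rw [Finset.sum_product]
end Pool.Agent.TH9
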