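import Pool.Agent.Helper1.TH9.Defs

set_option autoImplicit false
open MeasureTheory

namespace Pool.Agent.TH9



theorem memLp3 (N : ℕ) (M : ℝ) (f : ℝ × ℝ → ℝ) (hf : Good N M f) : MemLp f 3 volume := by
  set S : Set (ℝ × ℝ) := Set.Ioo (-(2:ℝ) ^ N) (2 ^ N) ×ˢ Set.Ioo (-(2:ℝ) ^ N) (2 ^ N) with hS
  have hSm : MeasurableSet S := measurableSet_Ioo.prod measurableSet_Ioo
  have hSfin : volume S < ⊤ := by
    rw [hS, Measure.volume_eq_prod, Measure.prod_prod, Real.volume_Ioo]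
    exact ENNReal.mul_lt_top ENNReal.ofReal_lt_top ENNReal.ofReal_lt_top
  have hind : f = S.indicator f := by
    funext p
    by_cases hp : p ∈ S
    · rw [Set.indicator_of_mem hp]
    · rw [Set.indicator_of_notMem hp]
      by_contra h
      obtain ⟨h1, h2⟩ := hf.supp p h
      rw [abs_lt] at h1 h2
      exact hp ⟨⟨h1.1, h1.2⟩, ⟨h2.1, h2.2⟩⟩
  rw [hind, memLp_indicator_iff_restrict hSm]
  haveI : IsFiniteMeasure (volume.restrict S) := ⟨by
    rw [Measure.restrict_apply_univ]; exact hSfin⟩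
  apply MemLp.of_bound hf.meas.aestronglyMeasurable M
  exact Filter.Eventually.of_forall (fun p => by rw [Real.norm_eq_abs]; exact hf.bdd p)

theorem norm_eq (N : ℕ) (M : ℝ) (f : ℝ × ℝ → ℝ) (hf : Good N M f) :
    ∫ p in Q2 N, |f p| ^ 3 ≤ (eLpNorm f 3 volume).toReal ^ 3 := by
  have hm := memLp3 N M f hf
  have h3 : (3 : ENNReal).toReal = 3 := by norm_num
  have hI0 : (0:ℝ) ≤ ∫ p, ‖f p‖ ^ (3 : ℝ) := integral_nonneg (fun p => by positivity)
  have h1 := hm.eLpNorm_eq_integral_rpow_norm (by norm_num) (by norm_num)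
  rw [h3] at h1
  have h2 : (eLpNorm f 3 volume).toReal ^ 3 = ∫ p, ‖f p‖ ^ (3 : ℝ) := by
    rw [h1, ENNReal.toReal_ofReal (Real.rpow_nonneg hI0 _), ← Real.rpow_natCast, ← Real.rpow_mul hI0]
    norm_num
  have h4 : ∀ p, |f p| ^ 3 = ‖f p‖ ^ (3 : ℝ) := by
    intro p
    rw [Real.norm_eq_abs]
    norm_cast
  have hint : Integrable (fun p => |f p| ^ 3) volume := by
    have := hm.integrable_norm_rpow (by norm_num) (by norm_num)
    rw [h3] at this
    refine this.congr (Filter.Eventually.of_forall (fun p => ?_))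
    exact (h4 p).symm
  rw [h2]
  calc ∫ p in Q2 N, |f p| ^ 3 ≤ ∫ p, |f p| ^ 3 :=
        setIntegral_le_integral hint (Filter.Eventually.of_forall (fun p => by
          show (0:ℝ) ≤ |f p| ^ 3
          positivity))
    _ = ∫ p, ‖f p‖ ^ (3 : ℝ) := by
        refine integral_congr_ae (Filter.Eventually.of_forall (fun p => h4 p))

end Pool.Agent.TH9
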