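import Pool.Agent.Helper1.TH9.Defs

set_option autoImplicit false
open MeasureTheory

namespace Pool.Agent.TH9



theorem flat_sum_block (A L : ℕ) (w : ℕ → ℝ) :
    ∑ i ∈ Finset.range (A * L), w i =
      ∑ p ∈ Finset.range A, ∑ i ∈ Finset.range L, w (p * L + i) := by
  induction A with
  | zero => simp
  | succ A ih => rw [Nat.succ_mul, Finset.sum_range_add, ih, Finset.sum_range_succ]

theorem flat_sum_chi (A L a : ℕ) (hL : 0 < L) (ha : a < A) (w : ℕ → ℝ) :
    ∑ i ∈ Finset.range (A * L), w i * chi L i a =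
      ∑ i ∈ Finset.range L, w (a * L + i) * sg L i := by
  have hdiv : ∀ p i : ℕ, i < L → (p * L + i) / L = p := by
    intro p i hi
    rw [mul_comm, Nat.mul_add_div hL, Nat.div_eq_of_lt hi, add_zero]
  rw [flat_sum_block, Finset.sum_eq_single a]
  · apply Finset.sum_congr rfl
    intro i hi
    rw [Finset.mem_range] at hi
    have h1 := hdiv a i hi
    have h2 : (a * L + i) % L = i := by
      rw [mul_comm, Nat.mul_add_mod, Nat.mod_eq_of_lt hi]
    simp only [chi, h1, h2, if_true]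
  · intro p _ hp
    apply Finset.sum_eq_zero
    intro i hi
    rw [Finset.mem_range] at hi
    have h1 := hdiv p i hi
    simp [chi, h1, hp]
  · intro h
    exact (h (Finset.mem_range.2 ha)).elim

theorem flat_sum (n s : ℕ) (hs : s ≤ n) (f g h : ℕ → ℕ → ℝ) :
    ∑ a ∈ Finset.range (2 ^ s), ∑ b ∈ Finset.range (2 ^ s),
      ∑ i ∈ Finset.range (2 ^ n), ∑ j ∈ Finset.range (2 ^ n), ∑ l ∈ Finset.range (2 ^ n),
        f i j * g j l * h l i * chi (2 ^ (n - s)) i a * chi (2 ^ (n - s)) j b *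
          chi (2 ^ (n - s)) l (a ^^^ b) =
      (4:ℝ) ^ s * 8 ^ (n - s) * Lam n s f g h := by
  have hL : 0 < 2 ^ (n - s) := by positivity
  have hn : 2 ^ n = 2 ^ s * 2 ^ (n - s) := by
    rw [← pow_add]
    congr 1
    omega
  have h4 : (4:ℝ) ^ s * (4:ℝ)⁻¹ ^ s = 1 := by
    rw [← mul_pow]
    norm_num
  have h8 : (8:ℝ) ^ (n - s) * (8:ℝ)⁻¹ ^ (n - s) = 1 := by
    rw [← mul_pow]
    norm_num
  have hR : (4:ℝ) ^ s * 8 ^ (n - s) * Lam n s f g h =
      ∑ p ∈ Finset.range (2 ^ s), ∑ q ∈ Finset.range (2 ^ s),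
      ∑ i ∈ Finset.range (2 ^ (n - s)), ∑ j ∈ Finset.range (2 ^ (n - s)),
        ∑ k ∈ Finset.range (2 ^ (n - s)),
          sg (2 ^ (n - s)) i * sg (2 ^ (n - s)) j * sg (2 ^ (n - s)) k *
            f (p * 2 ^ (n - s) + i) (q * 2 ^ (n - s) + j) *
            g (q * 2 ^ (n - s) + j) ((p ^^^ q) * 2 ^ (n - s) + k) *
            h ((p ^^^ q) * 2 ^ (n - s) + k) (p * 2 ^ (n - s) + i) := by
    unfold Lam
    rw [← mul_assoc]
    have : (4:ℝ) ^ s * 8 ^ (n - s) * ((4:ℝ)⁻¹ ^ s * (8:ℝ)⁻¹ ^ (n - s)) = 1 := by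
      calc (4:ℝ) ^ s * 8 ^ (n - s) * ((4:ℝ)⁻¹ ^ s * (8:ℝ)⁻¹ ^ (n - s)) =
          ((4:ℝ) ^ s * (4:ℝ)⁻¹ ^ s) * ((8:ℝ) ^ (n - s) * (8:ℝ)⁻¹ ^ (n - s)) := by ring
        _ = 1 := by rw [h4, h8, one_mul]
    rw [this, one_mul]
  rw [hR]
  apply Finset.sum_congr rfl
  intro a ha
  apply Finset.sum_congr rfl
  intro b hb
  rw [Finset.mem_range] at ha hb
  have hc : a ^^^ b < 2 ^ s := Nat.xor_lt_two_pow ha hb
  set c := a ^^^ b with hcdef
  set L := 2 ^ (n - s) with hLdef
  rw [hn]
  calc ∑ i ∈ Finset.range (2 ^ s * L), ∑ j ∈ Finset.range (2 ^ s * L),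
        ∑ l ∈ Finset.range (2 ^ s * L), f i j * g j l * h l i * chi L i a * chi L j b * chi L l c
      = ∑ i ∈ Finset.range (2 ^ s * L), (∑ j ∈ Finset.range (2 ^ s * L),
          (∑ k ∈ Finset.range L, f i j * g j (c * L + k) * h (c * L + k) i * sg L k) *
            chi L j b) * chi L i a := by
        apply Finset.sum_congr rfl
        intro i _
        rw [Finset.sum_mul]
        apply Finset.sum_congr rfl
        intro j _
        rw [flat_sum_chi (2 ^ s) L c hL hc
          (fun l => f i j * g j l * h l i * chi L i a * chi L j b), Finset.sum_mul, Finset.sum_mul]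
        apply Finset.sum_congr rfl
        intro k _
        ring
    _ = ∑ i ∈ Finset.range L, (∑ j ∈ Finset.range L,
          (∑ k ∈ Finset.range L, f (a * L + i) (b * L + j) * g (b * L + j) (c * L + k) *
            h (c * L + k) (a * L + i) * sg L k) * sg L j) * sg L i := by
        rw [flat_sum_chi (2 ^ s) L a hL ha (fun i => ∑ j ∈ Finset.range (2 ^ s * L),
          (∑ k ∈ Finset.range L, f i j * g j (c * L + k) * h (c * L + k) i * sg L k) *
            chi L j b)]
        apply Finset.sum_congr rfl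
        intro i _
        rw [flat_sum_chi (2 ^ s) L b hL hb (fun j => ∑ k ∈ Finset.range L, f (a * L + i) j *
          g j (c * L + k) * h (c * L + k) (a * L + i) * sg L k)]
    _ = _ := by
        apply Finset.sum_congr rfl
        intro i _
        rw [Finset.sum_mul]
        apply Finset.sum_congr rfl
        intro j _
        rw [Finset.sum_mul, Finset.sum_mul]
        apply Finset.sum_congr rfl
        intro k _
        ring

end Pool.Agent.TH9
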