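import Pool.Agent.Helper1.TH9.Defs
import Pool.Agent.Helper1.TH9.P_H_meas
import Pool.Agent.Helper1.TH9.P_H_abs
import Pool.Agent.Helper1.TH9.P_H_ne
import Pool.Agent.Helper1.TH9.P_W_int

set_option autoImplicit false
open MeasureTheory

namespace Pool.Agent.TH9



theorem iter_eq_aux (N s a : ℕ) (x : ℝ) (ha : a < 2 ^ s) (hx : H ((N : ℤ) - s) a x ≠ 0) :
    x ∈ Set.Ico (0:ℝ) (2 ^ N) := by
  obtain ⟨h1, h2⟩ := H_ne N s a x hx
  have h3 : (0:ℝ) ≤ (2:ℝ) ^ N * a := by positivity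
  have hs : (0:ℝ) < (2:ℝ) ^ s := by positivity
  have hN : (0:ℝ) < (2:ℝ) ^ N := by positivity
  have h4 : ((a:ℝ) + 1) ≤ (2:ℝ) ^ s := by
    have : a + 1 ≤ 2 ^ s := ha
    exact_mod_cast this
  constructor
  · by_contra hneg
    rw [not_le] at hneg
    nlinarith
  · have : (2:ℝ) ^ s * x < 2 ^ s * 2 ^ N := by nlinarith
    exact lt_of_mul_lt_mul_left this hs.le

theorem iter_eq (N s : ℕ) (M : ℝ) (f g h : ℝ × ℝ → ℝ) (hf : Good N M f) (hg : Good N M g)
    (hh : Good N M h) (a b : ℕ) (ha : a < 2 ^ s) (hb : b < 2 ^ s) :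
    (∫ x : ℝ, ∫ y : ℝ, ∫ z : ℝ, W ((N : ℤ) - s) a b f g h x y z) =
      ∫ p in Q3 N, W ((N : ℤ) - s) a b f g h p.1 p.2.1 p.2.2 := by
  have hab : a ^^^ b < 2 ^ s := Nat.xor_lt_two_pow ha hb
  have hzero : ∀ p : ℝ × ℝ × ℝ, p ∉ Q3 N → W ((N : ℤ) - s) a b f g h p.1 p.2.1 p.2.2 = 0 := by
    intro p hp
    by_contra hne
    apply hp
    unfold W at hne
    have h1 : H ((N : ℤ) - s) a p.1 ≠ 0 := by
      intro h0; apply hne; rw [h0]; ring
    have h2 : H ((N : ℤ) - s) b p.2.1 ≠ 0 := by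
      intro h0; apply hne; rw [h0]; ring
    have h3 : H ((N : ℤ) - s) (a ^^^ b) p.2.2 ≠ 0 := by
      intro h0; apply hne; rw [h0]; ring
    exact ⟨iter_eq_aux N s a _ ha h1, iter_eq_aux N s b _ hb h2, iter_eq_aux N s _ _ hab h3⟩
  have hint : Integrable (fun p : ℝ × ℝ × ℝ => W ((N : ℤ) - s) a b f g h p.1 p.2.1 p.2.2) := by
    rw [← integrableOn_iff_integrable_of_support_subset (s := Q3 N)]
    · exact W_int N _ M f g h hf hg hh a b
    · intro p hp
      by_contra hq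
      exact hp (hzero p hq)
  rw [setIntegral_eq_integral_of_forall_compl_eq_zero hzero]
  rw [Measure.volume_eq_prod] at hint ⊢
  rw [integral_prod _ hint]
  apply integral_congr_ae
  filter_upwards [hint.prod_right_ae] with x hx
  rw [Measure.volume_eq_prod] at hx ⊢
  rw [integral_prod _ hx]

end Pool.Agent.TH9
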