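import Pool.Agent.Helper1.TH9.Defs
import Pool.Agent.Helper1.TH9.P_H_meas
import Pool.Agent.Helper1.TH9.P_H_abs
import Pool.Agent.Helper1.TH9.P_H_cell
import Pool.Agent.Helper1.TH9.P_T_eq
import Pool.Agent.Helper1.TH9.P_iter_eq
import Pool.Agent.Helper1.TH9.P_W_int
import Pool.Agent.Helper1.TH9.P_cells3
import Pool.Agent.Helper1.TH9.P_flat_sum

set_option autoImplicit false
open MeasureTheory

namespace Pool.Agent.TH9



theorem meas_Q3z : MeasurableSet (Q3 0) := by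
  unfold Q3
  exact measurableSet_Ico.prod (measurableSet_Ico.prod measurableSet_Ico)

/-- the cell integrand -/
noncomputable def EE (N m s : ℕ) (f g h : ℝ × ℝ → ℝ) (a b i j l : ℕ) (t : ℝ × ℝ × ℝ) : ℝ :=
  smp m f t.1 t.2.1 i j * smp m g t.2.1 t.2.2 j l * smp m h t.2.2 t.1 l i *
    chi (2 ^ (N + m - s)) i a * chi (2 ^ (N + m - s)) j b * chi (2 ^ (N + m - s)) l (a ^^^ b)

theorem EE_key (N m s : ℕ) (hs : s < N + m) (f g h : ℝ × ℝ → ℝ) (a b i j l : ℕ)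
    (t : ℝ × ℝ × ℝ) (ht : t ∈ Q3 0) :
    W ((N : ℤ) - s) a b f g h (((i : ℝ) + t.1) / 2 ^ m) (((j : ℝ) + t.2.1) / 2 ^ m)
      (((l : ℝ) + t.2.2) / 2 ^ m) = EE N m s f g h a b i j l t := by
  obtain ⟨h1, h2, h3⟩ := ht
  simp only [pow_zero, Set.mem_Ico] at h1 h2 h3
  unfold W EE smp
  rw [H_cell N m s hs a i t.1 h1.1 h1.2, H_cell N m s hs b j t.2.1 h2.1 h2.2,
    H_cell N m s hs (a ^^^ b) l t.2.2 h3.1 h3.2]

theorem EE_int (N m s : ℕ) (hs : s < N + m) (M : ℝ) (f g h : ℝ × ℝ → ℝ) (hf : Good N M f)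
    (hg : Good N M g) (hh : Good N M h) (a b i j l : ℕ) (hi : i ∈ Finset.range (2 ^ (N + m)))
    (hj : j ∈ Finset.range (2 ^ (N + m))) (hl : l ∈ Finset.range (2 ^ (N + m))) :
    IntegrableOn (EE N m s f g h a b i j l) (Q3 0) := by
  have h1 := (cells3 N m _ (W_int N ((N : ℤ) - s) M f g h hf hg hh a b)).1 i hi j hj l hl
  exact h1.congr_fun (fun t ht => EE_key N m s hs f g h a b i j l t ht) meas_Q3z

theorem EE_ab (N m s : ℕ) (hs : s < N + m) (M : ℝ) (f g h : ℝ × ℝ → ℝ) (hf : Good N M f)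
    (hg : Good N M g) (hh : Good N M h) (a b : ℕ) (ha : a < 2 ^ s) (hb : b < 2 ^ s) :
    (∫ x : ℝ, ∫ y : ℝ, ∫ z : ℝ, W ((N : ℤ) - s) a b f g h x y z) =
      (8:ℝ)⁻¹ ^ m * ∫ t in Q3 0, ∑ i ∈ Finset.range (2 ^ (N + m)),
        ∑ j ∈ Finset.range (2 ^ (N + m)), ∑ l ∈ Finset.range (2 ^ (N + m)),
          EE N m s f g h a b i j l t := by
  rw [iter_eq N s M f g h hf hg hh a b ha hb,
    (cells3 N m _ (W_int N ((N : ℤ) - s) M f g h hf hg hh a b)).2]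
  congr 1
  rw [integral_finsetSum _ (fun i hi => integrable_finsetSum _ (fun j hj =>
    integrable_finsetSum _ (fun l hl => EE_int N m s hs M f g h hf hg hh a b i j l hi hj hl)))]
  refine Finset.sum_congr rfl (fun i hi => ?_)
  rw [integral_finsetSum _ (fun j hj =>
    integrable_finsetSum _ (fun l hl => EE_int N m s hs M f g h hf hg hh a b i j l hi hj hl))]
  refine Finset.sum_congr rfl (fun j hj => ?_)
  rw [integral_finsetSum _ (fun l hl => EE_int N m s hs M f g h hf hg hh a b i j l hi hj hl)]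
  refine Finset.sum_congr rfl (fun l hl => ?_)
  exact setIntegral_congr_fun meas_Q3z (fun t ht => EE_key N m s hs f g h a b i j l t ht)

theorem main_const (N m s : ℕ) (hs : s < N + m) (I : ℝ) :
    (2:ℝ) ^ (-((N : ℤ) - s)) * ((8:ℝ)⁻¹ ^ m * ((4:ℝ) ^ s * 8 ^ (N + m - s) * I)) = 4 ^ N * I := by
  obtain ⟨d, hd⟩ := Nat.exists_eq_add_of_le hs.le
  have h1 : N + m - s = d := by omega
  rw [h1]
  have h8 : (8:ℝ) = 2 ^ 3 := by norm_num
  have h4 : (4:ℝ) = 2 ^ 2 := by norm_num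
  have h2 : (2:ℝ) ≠ 0 := by norm_num
  have e1 : (2:ℝ) ^ (-((N : ℤ) - s)) * ((8:ℝ)⁻¹ ^ m * ((4:ℝ) ^ s * 8 ^ d)) = 4 ^ N := by
    rw [h8, h4, inv_pow, ← pow_mul, ← pow_mul, ← pow_mul, ← pow_mul, ← zpow_natCast,
      ← zpow_natCast, ← zpow_natCast, ← zpow_natCast, ← zpow_neg, ← zpow_add₀ h2, ← zpow_add₀ h2,
      ← zpow_add₀ h2]
    congr 1
    have : (N : ℤ) + m = s + d := by exact_mod_cast hd
    push_cast
    linarith
  calc (2:ℝ) ^ (-((N : ℤ) - s)) * ((8:ℝ)⁻¹ ^ m * ((4:ℝ) ^ s * 8 ^ d * I))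
      = ((2:ℝ) ^ (-((N : ℤ) - s)) * ((8:ℝ)⁻¹ ^ m * ((4:ℝ) ^ s * 8 ^ d))) * I := by ring
    _ = 4 ^ N * I := by rw [e1]

theorem main_id (N m s : ℕ) (hs : s < N + m) (M : ℝ) (f g h : ℝ × ℝ → ℝ) (hf : Good N M f)
    (hg : Good N M g) (hh : Good N M h) :
    (2:ℝ) ^ (-((N : ℤ) - s)) * T ((N : ℤ) - s) f g h =
      4 ^ N * ∫ t in Q3 0, Lam (N + m) s (smp m f t.1 t.2.1) (smp m g t.2.1 t.2.2)
        (smp m h t.2.2 t.1) := by
  have hint : ∀ a b : ℕ, Integrable (fun t => ∑ i ∈ Finset.range (2 ^ (N + m)),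
        ∑ j ∈ Finset.range (2 ^ (N + m)), ∑ l ∈ Finset.range (2 ^ (N + m)),
          EE N m s f g h a b i j l t) (volume.restrict (Q3 0)) := fun a b =>
    integrable_finsetSum _ (fun i hi => integrable_finsetSum _ (fun j hj =>
      integrable_finsetSum _ (fun l hl => EE_int N m s hs M f g h hf hg hh a b i j l hi hj hl)))
  have hT : T ((N : ℤ) - s) f g h = (8:ℝ)⁻¹ ^ m * ((4:ℝ) ^ s * 8 ^ (N + m - s) *
      ∫ t in Q3 0, Lam (N + m) s (smp m f t.1 t.2.1) (smp m g t.2.1 t.2.2)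
        (smp m h t.2.2 t.1)) := by
    rw [T_eq N s M f g h hf hg hh, ← integral_const_mul]
    have e1 : ∀ a ∈ Finset.range (2 ^ s), ∑ b ∈ Finset.range (2 ^ s),
        (∫ x : ℝ, ∫ y : ℝ, ∫ z : ℝ, W ((N : ℤ) - s) a b f g h x y z) =
        (8:ℝ)⁻¹ ^ m * ∫ t in Q3 0, ∑ b ∈ Finset.range (2 ^ s), ∑ i ∈ Finset.range (2 ^ (N + m)),
        ∑ j ∈ Finset.range (2 ^ (N + m)), ∑ l ∈ Finset.range (2 ^ (N + m)),
          EE N m s f g h a b i j l t := by
      intro a ha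
      rw [integral_finsetSum _ (fun b _ => hint a b), Finset.mul_sum]
      refine Finset.sum_congr rfl (fun b hb => ?_)
      exact EE_ab N m s hs M f g h hf hg hh a b (Finset.mem_range.mp ha) (Finset.mem_range.mp hb)
    rw [Finset.sum_congr rfl e1, ← Finset.mul_sum, ← integral_finsetSum _ (fun a _ =>
      integrable_finsetSum _ (fun b _ => hint a b))]
    congr 1
    refine integral_congr_ae (Filter.Eventually.of_forall (fun t => ?_))
    exact flat_sum (N + m) s hs.le (smp m f t.1 t.2.1) (smp m g t.2.1 t.2.2) (smp m h t.2.2 t.1)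
  rw [hT]
  exact main_const N m s hs _

end Pool.Agent.TH9
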