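import Pool.Agent.Helper1.TH9.Defs

set_option autoImplicit false
open MeasureTheory

namespace Pool.Agent.TH9



theorem proj_int (G : ℝ × ℝ → ℝ) (hG : Measurable G) (hb : ∃ K : ℝ, ∀ p, |G p| ≤ K) :
    ((∫ t in Q3 0, G (t.1, t.2.1)) = ∫ t in Q2 0, G t) ∧
    ((∫ t in Q3 0, G (t.2.1, t.2.2)) = ∫ t in Q2 0, G t) ∧
    ((∫ t in Q3 0, G (t.2.2, t.1)) = ∫ t in Q2 0, G t) := by
  set ν : Measure ℝ := volume.restrict (Set.Ico (0:ℝ) (2 ^ 0)) with hν
  have hprob : IsProbabilityMeasure ν := by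
    constructor
    rw [hν, Measure.restrict_apply_univ, Real.volume_Ico]
    simp
  have h2 : (volume : Measure (ℝ × ℝ)).restrict (Q2 0) = ν.prod ν := by
    rw [hν, Measure.prod_restrict]
    rfl
  have h3 : (volume : Measure (ℝ × ℝ × ℝ)).restrict (Q3 0) = ν.prod (ν.prod ν) := by
    rw [hν, Measure.prod_restrict, Measure.prod_restrict]
    rfl
  rw [h2, h3]
  have key : ∀ π : ℝ × ℝ × ℝ → ℝ × ℝ, MeasurePreserving π (ν.prod (ν.prod ν)) (ν.prod ν) →
      ∫ t, G (π t) ∂(ν.prod (ν.prod ν)) = ∫ t, G t ∂(ν.prod ν) := by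
    intro π hπ
    have h := integral_map (μ := ν.prod (ν.prod ν)) (φ := π) (f := G) hπ.measurable.aemeasurable
      hG.aestronglyMeasurable
    rw [hπ.map_eq] at h
    exact h.symm
  have p1 : MeasurePreserving (fun t : ℝ × ℝ × ℝ => (t.1, t.2.1)) (ν.prod (ν.prod ν)) (ν.prod ν) :=
    (MeasurePreserving.id ν).prod (measurePreserving_fst (μ := ν) (ν := ν))
  have p2 : MeasurePreserving (fun t : ℝ × ℝ × ℝ => (t.2.1, t.2.2)) (ν.prod (ν.prod ν)) (ν.prod ν) :=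
    measurePreserving_snd (μ := ν) (ν := ν.prod ν)
  have p3 : MeasurePreserving (fun t : ℝ × ℝ × ℝ => (t.2.2, t.1)) (ν.prod (ν.prod ν)) (ν.prod ν) :=
    (Measure.measurePreserving_swap (μ := ν) (ν := ν)).comp
      ((MeasurePreserving.id ν).prod (measurePreserving_snd (μ := ν) (ν := ν)))
  exact ⟨key _ p1, key _ p2, key _ p3⟩

end Pool.Agent.TH9
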