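import Pool.Agent.Helper1.TH9.Defs
import Pool.Agent.Helper1.TH9.P_main_id
import Pool.Agent.Helper1.TH9.P_smp_meas
import Pool.Agent.Helper1.TH9.P_Lam_int
import Pool.Agent.Helper1.TH9.P_a3_int
import Pool.Agent.Helper1.TH9.P_proj_int
import Pool.Agent.Helper1.TH9.P_a3_cells

set_option autoImplicit false
open MeasureTheory

namespace Pool.Agent.TH9



theorem a3_meas_aux (n m : ℕ) (f : ℝ × ℝ → ℝ) (hf : Measurable f) :
    Measurable (fun t : ℝ × ℝ => a3 n (smp m f t.1 t.2)) := by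
  unfold a3
  apply Measurable.const_mul
  refine Finset.measurable_fun_sum _ (fun i _ => ?_)
  refine Finset.measurable_fun_sum _ (fun j _ => ?_)
  have h := smp_meas m f hf i j
  exact (h.abs).pow_const 3

theorem a3_bdd_aux (N n m : ℕ) (M : ℝ) (f : ℝ × ℝ → ℝ) (hf : Good N M f) :
    ∃ K : ℝ, ∀ p : ℝ × ℝ, |a3 n (smp m f p.1 p.2)| ≤ K := by
  refine ⟨(4:ℝ)⁻¹ ^ n * ∑ i ∈ Finset.range (2 ^ n), ∑ j ∈ Finset.range (2 ^ n), M ^ 3, ?_⟩
  intro p
  have h0 : 0 ≤ a3 n (smp m f p.1 p.2) := by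
    unfold a3
    positivity
  rw [abs_of_nonneg h0]
  unfold a3
  apply mul_le_mul_of_nonneg_left _ (by positivity)
  refine Finset.sum_le_sum (fun i _ => Finset.sum_le_sum (fun j _ => ?_))
  exact pow_le_pow_left₀ (abs_nonneg _) (hf.bdd _) 3

theorem sum_bound (C : ℝ) (hC : FS C) (N m : ℕ) (M : ℝ) (f g h : ℝ × ℝ → ℝ) (hf : Good N M f)
    (hg : Good N M g) (hh : Good N M h) :
    ∑ s ∈ Finset.range (N + m), |(2:ℝ) ^ (-((N : ℤ) - s)) * T ((N : ℤ) - s) f g h| ≤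
      C * ((∫ p in Q2 N, |f p| ^ 3) + (∫ p in Q2 N, |g p| ^ 3) + ∫ p in Q2 N, |h p| ^ 3) := by
  have h4 : (0:ℝ) < 4 ^ N := by positivity
  have step1 : ∑ s ∈ Finset.range (N + m), |(2:ℝ) ^ (-((N : ℤ) - s)) * T ((N : ℤ) - s) f g h| ≤
      ∑ s ∈ Finset.range (N + m), 4 ^ N * ∫ t in Q3 0, |Lam (N + m) s (smp m f t.1 t.2.1)
        (smp m g t.2.1 t.2.2) (smp m h t.2.2 t.1)| := by
    refine Finset.sum_le_sum (fun s hs => ?_)
    rw [main_id N m s (Finset.mem_range.mp hs) M f g h hf hg hh, abs_mul, abs_of_pos h4]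
    exact mul_le_mul_of_nonneg_left (by
      have := norm_integral_le_integral_norm (μ := volume.restrict (Q3 0))
        (fun t : ℝ × ℝ × ℝ => Lam (N + m) s (smp m f t.1 t.2.1)
          (smp m g t.2.1 t.2.2) (smp m h t.2.2 t.1))
      simpa only [Real.norm_eq_abs] using this) h4.le
  have step2 : ∑ s ∈ Finset.range (N + m), 4 ^ N * ∫ t in Q3 0, |Lam (N + m) s (smp m f t.1 t.2.1)
        (smp m g t.2.1 t.2.2) (smp m h t.2.2 t.1)| =
      4 ^ N * ∫ t in Q3 0, ∑ s ∈ Finset.range (N + m), |Lam (N + m) s (smp m f t.1 t.2.1)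
        (smp m g t.2.1 t.2.2) (smp m h t.2.2 t.1)| := by
    rw [← Finset.mul_sum, integral_finset_sum]
    intro s _
    exact Lam_int N (N + m) m s M f g h hf hg hh
  obtain ⟨hf1, hf2, hf3⟩ := a3_int N (N + m) m M f hf
  obtain ⟨hg1, hg2, hg3⟩ := a3_int N (N + m) m M g hg
  obtain ⟨hh1, hh2, hh3⟩ := a3_int N (N + m) m M h hh
  have step3 : (∫ t in Q3 0, ∑ s ∈ Finset.range (N + m), |Lam (N + m) s (smp m f t.1 t.2.1)
        (smp m g t.2.1 t.2.2) (smp m h t.2.2 t.1)|) ≤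
      ∫ t in Q3 0, C * (a3 (N + m) (smp m f t.1 t.2.1) + a3 (N + m) (smp m g t.2.1 t.2.2) +
        a3 (N + m) (smp m h t.2.2 t.1)) := by
    apply integral_mono
    · apply integrable_finset_sum
      intro s _
      exact Lam_int N (N + m) m s M f g h hf hg hh
    · exact ((hf1.add hg2).add hh3).const_mul C
    · intro t
      exact hC (N + m) _ _ _
  have step4 : (∫ t in Q3 0, C * (a3 (N + m) (smp m f t.1 t.2.1) + a3 (N + m) (smp m g t.2.1 t.2.2) +
        a3 (N + m) (smp m h t.2.2 t.1))) =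
      C * ((∫ t in Q2 0, a3 (N + m) (smp m f t.1 t.2)) + (∫ t in Q2 0, a3 (N + m) (smp m g t.1 t.2)) +
        ∫ t in Q2 0, a3 (N + m) (smp m h t.1 t.2)) := by
    rw [integral_const_mul]
    congr 1
    have e1 := (proj_int (fun t : ℝ × ℝ => a3 (N + m) (smp m f t.1 t.2))
      (a3_meas_aux (N + m) m f hf.meas) (a3_bdd_aux N (N + m) m M f hf)).1
    have e2 := (proj_int (fun t : ℝ × ℝ => a3 (N + m) (smp m g t.1 t.2))
      (a3_meas_aux (N + m) m g hg.meas) (a3_bdd_aux N (N + m) m M g hg)).2.1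
    have e3 := (proj_int (fun t : ℝ × ℝ => a3 (N + m) (smp m h t.1 t.2))
      (a3_meas_aux (N + m) m h hh.meas) (a3_bdd_aux N (N + m) m M h hh)).2.2
    rw [← e1, ← e2, ← e3]
    have a1 := integral_add (μ := volume.restrict (Q3 0)) (hf1.add hg2) hh3
    have a2 := integral_add (μ := volume.restrict (Q3 0)) hf1 hg2
    simp only [Pi.add_apply] at a1 a2
    rw [a1, a2]
  calc ∑ s ∈ Finset.range (N + m), |(2:ℝ) ^ (-((N : ℤ) - s)) * T ((N : ℤ) - s) f g h|
      ≤ 4 ^ N * ∫ t in Q3 0, ∑ s ∈ Finset.range (N + m), |Lam (N + m) s (smp m f t.1 t.2.1)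
        (smp m g t.2.1 t.2.2) (smp m h t.2.2 t.1)| := by rw [← step2]; exact step1
    _ ≤ 4 ^ N * (C * ((∫ t in Q2 0, a3 (N + m) (smp m f t.1 t.2)) +
        (∫ t in Q2 0, a3 (N + m) (smp m g t.1 t.2)) +
        ∫ t in Q2 0, a3 (N + m) (smp m h t.1 t.2))) := by
        rw [← step4]
        exact mul_le_mul_of_nonneg_left step3 h4.le
    _ = C * (4 ^ N * (∫ t in Q2 0, a3 (N + m) (smp m f t.1 t.2)) +
        4 ^ N * (∫ t in Q2 0, a3 (N + m) (smp m g t.1 t.2)) +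
        4 ^ N * ∫ t in Q2 0, a3 (N + m) (smp m h t.1 t.2)) := by ring
    _ = _ := by
        rw [a3_cells N m M f hf, a3_cells N m M g hg, a3_cells N m M h hh]

end Pool.Agent.TH9
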