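import Pool.Agent.Helper1.TH9.Defs
import Pool.Agent.Helper1.TH9.P_norm_eq
import Pool.Agent.Helper1.TH9.P_sum_bound

set_option autoImplicit false
open MeasureTheory

namespace Pool.Agent.TH9



theorem cube_bound (C : ℝ) (hC0 : 0 ≤ C) (hC : FS C) (S : Finset ℤ) (ε : ℤ → ℝ)
    (hε : ∀ k, |ε k| ≤ 1) (M : ℝ) (f g h : ℝ × ℝ → ℝ) (N0 : ℕ)
    (hf : ∀ N, N0 ≤ N → Good N M f) (hg : ∀ N, N0 ≤ N → Good N M g)
    (hh : ∀ N, N0 ≤ N → Good N M h) :
    |∑ k ∈ S, (2:ℝ) ^ (-k) * ε k * T k f g h| ≤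
      C * ((eLpNorm f 3 volume).toReal ^ 3 + (eLpNorm g 3 volume).toReal ^ 3 +
        (eLpNorm h 3 volume).toReal ^ 3) := by
  classical
  obtain ⟨B, hB⟩ : ∃ B : ℕ, ∀ k ∈ S, k.natAbs ≤ B :=
    ⟨∑ k ∈ S, k.natAbs, fun k hk =>
      Finset.single_le_sum (f := fun k : ℤ => k.natAbs) (fun _ _ => Nat.zero_le _) hk⟩
  set N : ℕ := N0 + B with hN
  set m : ℕ := B + 1 with hm
  set F : ℕ → ℝ := fun s => |(2:ℝ) ^ (-((N : ℤ) - s)) * T ((N : ℤ) - s) f g h| with hF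
  have hfN := hf N (by omega)
  have hgN := hg N (by omega)
  have hhN := hh N (by omega)
  have hk : ∀ k ∈ S, (N : ℤ) - ((((N : ℤ) - k).toNat : ℕ) : ℤ) = k := by
    intro k hkS
    have := hB k hkS
    omega
  have step1 : |∑ k ∈ S, (2:ℝ) ^ (-k) * ε k * T k f g h| ≤ ∑ k ∈ S, F (((N : ℤ) - k).toNat) := by
    refine (Finset.abs_sum_le_sum_abs _ _).trans (Finset.sum_le_sum ?_)
    intro k hkS
    simp only [hF]
    rw [hk k hkS]
    have e : (2:ℝ) ^ (-k) * ε k * T k f g h = ε k * ((2:ℝ) ^ (-k) * T k f g h) := by ring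
    rw [e, abs_mul]
    calc |ε k| * |(2:ℝ) ^ (-k) * T k f g h| ≤ 1 * |(2:ℝ) ^ (-k) * T k f g h| :=
          mul_le_mul_of_nonneg_right (hε k) (abs_nonneg _)
      _ = |(2:ℝ) ^ (-k) * T k f g h| := one_mul _
  have hinj : Set.InjOn (fun k : ℤ => ((N : ℤ) - k).toNat) (S : Set ℤ) := by
    intro a ha b hb hab
    have h1 := hk a ha
    have h2 := hk b hb
    simp only at hab
    rw [hab] at h1
    omega
  have step2 : ∑ k ∈ S, F (((N : ℤ) - k).toNat) ≤ ∑ s ∈ Finset.range (N + m), F s := by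
    rw [← Finset.sum_image (f := F) (g := fun k : ℤ => ((N : ℤ) - k).toNat) hinj]
    apply Finset.sum_le_sum_of_subset_of_nonneg
    · intro s hs
      rw [Finset.mem_image] at hs
      obtain ⟨k, hkS, rfl⟩ := hs
      rw [Finset.mem_range]
      have := hB k hkS
      omega
    · intro s _ _
      exact abs_nonneg _
  have step3 := sum_bound C hC N m M f g h hfN hgN hhN
  have e1 := norm_eq N M f hfN
  have e2 := norm_eq N M g hgN
  have e3 := norm_eq N M h hhN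
  calc |∑ k ∈ S, (2:ℝ) ^ (-k) * ε k * T k f g h|
      ≤ ∑ k ∈ S, F (((N : ℤ) - k).toNat) := step1
    _ ≤ ∑ s ∈ Finset.range (N + m), F s := step2
    _ ≤ C * ((∫ p in Q2 N, |f p| ^ 3) + (∫ p in Q2 N, |g p| ^ 3) + ∫ p in Q2 N, |h p| ^ 3) := step3
    _ ≤ C * ((eLpNorm f 3 volume).toReal ^ 3 + (eLpNorm g 3 volume).toReal ^ 3 +
        (eLpNorm h 3 volume).toReal ^ 3) := by
        apply mul_le_mul_of_nonneg_left _ hC0
        linarith

end Pool.Agent.TH9
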