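import Pool.Agent.Helper1.TH9.Defs

set_option autoImplicit false
open MeasureTheory

namespace Pool.Agent.TH9



theorem exists_good (f : ℝ × ℝ → ℝ) (hm : Measurable f) (hc : HasCompactSupport f) (M : ℝ)
    (hb : ∀ p, |f p| ≤ M) : ∃ N0 : ℕ, ∀ N : ℕ, N0 ≤ N → Good N M f := by
  obtain ⟨R, hR⟩ := (IsCompact.isBounded hc).exists_norm_le
  obtain ⟨N0, hN0⟩ := pow_unbounded_of_one_lt R (show (1 : ℝ) < 2 by norm_num)
  refine ⟨N0, fun N hN => ⟨hm, hb, fun p hp => ?_⟩⟩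
  have h1 : p ∈ tsupport f := subset_tsupport f hp
  have h2 : ‖p‖ ≤ R := hR p h1
  have h3 : (2 : ℝ) ^ N0 ≤ 2 ^ N := pow_le_pow_right₀ (by norm_num) hN
  have h4 : ‖p‖ < 2 ^ N := by linarith
  constructor
  · exact lt_of_le_of_lt (norm_fst_le p) h4
  · exact lt_of_le_of_lt (norm_snd_le p) h4

end Pool.Agent.TH9
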