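import Pool.Agent.Helper1.TH9.Defs

set_option autoImplicit false
open MeasureTheory

namespace Pool.Agent.TH9



theorem good_smul (N : ℕ) (M t : ℝ) (f : ℝ × ℝ → ℝ) (hf : Good N M f) (ht : 0 < t) (M' : ℝ)
    (hM : t * M ≤ M') : Good N M' (fun p => t * f p) := by
  refine ⟨hf.meas.const_mul t, fun p => ?_, fun p hp => hf.supp p (fun h => hp ?_)⟩
  · rw [abs_mul, abs_of_pos ht]
    exact (mul_le_mul_of_nonneg_left (hf.bdd p) ht.le).trans hM
  · simp only [h, mul_zero]

end Pool.Agent.TH9
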