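import Pool.Agent.Helper1.TH9.Defs

set_option autoImplicit false
open MeasureTheory

namespace Pool.Agent.TH9



theorem norm_smul3 (f : ℝ × ℝ → ℝ) (t : ℝ) (ht : 0 < t) :
    (eLpNorm (fun p => t * f p) 3 volume).toReal = t * (eLpNorm f 3 volume).toReal := by
  have h1 : (fun p => t * f p) = t • f := by
    funext p
    simp [Pi.smul_apply, smul_eq_mul]
  rw [h1, eLpNorm_const_smul, ENNReal.toReal_mul]
  congr 1
  simp [abs_of_pos ht]

end Pool.Agent.TH9
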