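import Pool.Agent.Helper1.TH9.Defs

set_option autoImplicit false
open MeasureTheory

namespace Pool.Agent.TH9



theorem scale_aux (b S : ℝ) (hS : 0 ≤ S) (h : ∀ T : ℝ, 1 ≤ T → T ^ 3 * b ≤ S) : b ≤ 0 := by
  by_contra hb
  push Not at hb
  have hT : 1 ≤ S / b + 1 := by
    have : 0 ≤ S / b := div_nonneg hS hb.le
    linarith
  have h1 := h (S / b + 1) hT
  have h2 : S / b + 1 ≤ (S / b + 1) ^ 3 := by
    calc S / b + 1 = (S / b + 1) ^ 1 := (pow_one _).symm
      _ ≤ _ := pow_le_pow_right₀ hT (by norm_num)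
  have h3 : (S / b + 1) * b ≤ S := (mul_le_mul_of_nonneg_right h2 hb.le).trans h1
  have h4 : (S / b + 1) * b = S + b := by
    field_simp
  linarith

theorem scale_real (C b F G K : ℝ) (hC : 0 ≤ C) (hb : 0 ≤ b) (hF : 0 ≤ F) (hG : 0 ≤ G)
    (hK : 0 ≤ K)
    (h : ∀ t u v : ℝ, 0 < t → 0 < u → 0 < v →
      t * u * v * b ≤ C * ((t * F) ^ 3 + (u * G) ^ 3 + (v * K) ^ 3)) :
    b ≤ 3 * C * F * G * K := by
  rcases eq_or_lt_of_le hF with hF0 | hF0
  · have : b ≤ 0 := by
      apply scale_aux b (C * (G ^ 3 + K ^ 3)) (by positivity)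
      intro T hT
      have hT0 : 0 < T := by linarith
      have h1 := h (T ^ 2) (1 / T) (1 / T) (by positivity) (by positivity) (by positivity)
      rw [← hF0] at h1
      have e1 : T ^ 2 * (1 / T) * (1 / T) * b = b := by field_simp
      have e2 : C * ((T ^ 2 * 0) ^ 3 + (1 / T * G) ^ 3 + (1 / T * K) ^ 3) =
          C * (G ^ 3 + K ^ 3) / T ^ 3 := by
        field_simp
        ring
      rw [e1, e2, le_div_iff₀ (by positivity)] at h1
      linarith
    rw [← hF0]
    simpa using this
  rcases eq_or_lt_of_le hG with hG0 | hG0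
  · have : b ≤ 0 := by
      apply scale_aux b (C * (F ^ 3 + K ^ 3)) (by positivity)
      intro T hT
      have hT0 : 0 < T := by linarith
      have h1 := h (1 / T) (T ^ 2) (1 / T) (by positivity) (by positivity) (by positivity)
      rw [← hG0] at h1
      have e1 : 1 / T * T ^ 2 * (1 / T) * b = b := by field_simp
      have e2 : C * ((1 / T * F) ^ 3 + (T ^ 2 * 0) ^ 3 + (1 / T * K) ^ 3) =
          C * (F ^ 3 + K ^ 3) / T ^ 3 := by
        field_simp
        ring
      rw [e1, e2, le_div_iff₀ (by positivity)] at h1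
      linarith
    rw [← hG0]
    simpa using this
  rcases eq_or_lt_of_le hK with hK0 | hK0
  · have : b ≤ 0 := by
      apply scale_aux b (C * (F ^ 3 + G ^ 3)) (by positivity)
      intro T hT
      have hT0 : 0 < T := by linarith
      have h1 := h (1 / T) (1 / T) (T ^ 2) (by positivity) (by positivity) (by positivity)
      rw [← hK0] at h1
      have e1 : 1 / T * (1 / T) * T ^ 2 * b = b := by field_simp
      have e2 : C * ((1 / T * F) ^ 3 + (1 / T * G) ^ 3 + (T ^ 2 * 0) ^ 3) =
          C * (F ^ 3 + G ^ 3) / T ^ 3 := by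
        field_simp
        ring
      rw [e1, e2, le_div_iff₀ (by positivity)] at h1
      linarith
    rw [← hK0]
    simpa using this
  have h1 := h (1 / F) (1 / G) (1 / K) (by positivity) (by positivity) (by positivity)
  have e1 : 1 / F * (1 / G) * (1 / K) * b = b / (F * G * K) := by field_simp
  have e2 : C * ((1 / F * F) ^ 3 + (1 / G * G) ^ 3 + (1 / K * K) ^ 3) = 3 * C := by
    field_simp
    ring
  rw [e1, e2, div_le_iff₀ (by positivity)] at h1
  linarith

end Pool.Agent.TH9
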