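import Pool.Agent.Helper1.TH9.Defs
import Pool.Agent.Helper1.TH9.P_cube_bound
import Pool.Agent.Helper1.TH9.P_T_smul
import Pool.Agent.Helper1.TH9.P_norm_smul3
import Pool.Agent.Helper1.TH9.P_scale_real
import Pool.Agent.Helper1.TH9.P_good_smul

set_option autoImplicit false
open MeasureTheory

namespace Pool.Agent.TH9



theorem prod_bound (C : ℝ) (hC0 : 0 ≤ C) (hC : FS C) (S : Finset ℤ) (ε : ℤ → ℝ)
    (hε : ∀ k, |ε k| ≤ 1) (M : ℝ) (f g h : ℝ × ℝ → ℝ) (N0 : ℕ)
    (hf : ∀ N, N0 ≤ N → Good N M f) (hg : ∀ N, N0 ≤ N → Good N M g)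
    (hh : ∀ N, N0 ≤ N → Good N M h) :
    |∑ k ∈ S, (2:ℝ) ^ (-k) * ε k * T k f g h| ≤
      3 * C * (eLpNorm f 3 volume).toReal * (eLpNorm g 3 volume).toReal *
        (eLpNorm h 3 volume).toReal := by
  apply scale_real C _ _ _ _ hC0 (abs_nonneg _) ENNReal.toReal_nonneg ENNReal.toReal_nonneg
    ENNReal.toReal_nonneg
  intro t u v ht hu hv
  have key := cube_bound C hC0 hC S ε hε (max (t * M) (max (u * M) (v * M)))
    (fun p => t * f p) (fun p => u * g p) (fun p => v * h p) N0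
    (fun N hN => good_smul N M t f (hf N hN) ht _ (le_max_left _ _))
    (fun N hN => good_smul N M u g (hg N hN) hu _ ((le_max_left _ _).trans (le_max_right _ _)))
    (fun N hN => good_smul N M v h (hh N hN) hv _ ((le_max_right _ _).trans (le_max_right _ _)))
  rw [norm_smul3 f t ht, norm_smul3 g u hu, norm_smul3 h v hv] at key
  have e : ∑ k ∈ S, (2:ℝ) ^ (-k) * ε k * T k (fun p => t * f p) (fun p => u * g p)
      (fun p => v * h p) = (t * u * v) * ∑ k ∈ S, (2:ℝ) ^ (-k) * ε k * T k f g h := by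
    rw [Finset.mul_sum]
    apply Finset.sum_congr rfl
    intro k _
    rw [T_smul]
    ring
  rw [e, abs_mul, abs_of_pos (by positivity : 0 < t * u * v)] at key
  exact key

end Pool.Agent.TH9
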