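import Pool.Agent.Helper1.TH9.Defs
import Pool.Agent.Helper1.TH9.P_exists_good
import Pool.Agent.Helper1.TH9.P_FS_mono
import Pool.Agent.Helper1.TH9.P_prod_bound

set_option autoImplicit false
open MeasureTheory

namespace Pool.Agent.TH9



theorem final (C : ℝ) (hC : FS C) :
    ∃ C : ℝ, ∀ (S : Finset ℤ) (ε : ℤ → ℝ), (∀ k, |ε k| ≤ 1) →
      ∀ f g h : ℝ × ℝ → ℝ,
        Measurable f → Measurable g → Measurable h →
        HasCompactSupport f → HasCompactSupport g → HasCompactSupport h →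
        (∃ M : ℝ, ∀ p, |f p| ≤ M) → (∃ M : ℝ, ∀ p, |g p| ≤ M) → (∃ M : ℝ, ∀ p, |h p| ≤ M) →
        |∑ k ∈ S, (2:ℝ) ^ (-k) * ε k *
            ∑' ab : ℕ × ℕ, ∫ x : ℝ, ∫ y : ℝ, ∫ z : ℝ,
              f (x, y) * g (y, z) * h (z, x) *
              (Set.indicator (Set.Ico ((2:ℝ) ^ k * (ab.1 : ℝ))
                  ((2:ℝ) ^ k * (ab.1 : ℝ) + (2:ℝ) ^ (k - 1))) (fun _ => (1:ℝ)) x
                - Set.indicator (Set.Ico ((2:ℝ) ^ k * (ab.1 : ℝ) + (2:ℝ) ^ (k - 1))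
                  ((2:ℝ) ^ k * ((ab.1 : ℝ) + 1))) (fun _ => (1:ℝ)) x) *
              (Set.indicator (Set.Ico ((2:ℝ) ^ k * (ab.2 : ℝ))
                  ((2:ℝ) ^ k * (ab.2 : ℝ) + (2:ℝ) ^ (k - 1))) (fun _ => (1:ℝ)) y
                - Set.indicator (Set.Ico ((2:ℝ) ^ k * (ab.2 : ℝ) + (2:ℝ) ^ (k - 1))
                  ((2:ℝ) ^ k * ((ab.2 : ℝ) + 1))) (fun _ => (1:ℝ)) y) *
              (Set.indicator (Set.Ico ((2:ℝ) ^ k * ((ab.1 ^^^ ab.2 : ℕ) : ℝ))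
                  ((2:ℝ) ^ k * ((ab.1 ^^^ ab.2 : ℕ) : ℝ) + (2:ℝ) ^ (k - 1))) (fun _ => (1:ℝ)) z
                - Set.indicator (Set.Ico ((2:ℝ) ^ k * ((ab.1 ^^^ ab.2 : ℕ) : ℝ) + (2:ℝ) ^ (k - 1))
                  ((2:ℝ) ^ k * (((ab.1 ^^^ ab.2 : ℕ) : ℝ) + 1))) (fun _ => (1:ℝ)) z)|
          ≤ C * (eLpNorm f 3 volume).toReal * (eLpNorm g 3 volume).toReal
              * (eLpNorm h 3 volume).toReal := by
  refine ⟨3 * max C 0, ?_⟩
  intro S ε hε f g h hmf hmg hmh hcf hcg hch ⟨Mf, hMf⟩ ⟨Mg, hMg⟩ ⟨Mh, hMh⟩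
  have hC' : FS (max C 0) := FS_mono C (max C 0) (le_max_left _ _) hC
  obtain ⟨M, hM⟩ : ∃ M, M = max Mf (max Mg Mh) := ⟨_, rfl⟩
  have hf1 : ∀ p, |f p| ≤ M := fun p => (hMf p).trans (by rw [hM]; exact le_max_left _ _)
  have hg1 : ∀ p, |g p| ≤ M := fun p => (hMg p).trans (by
    rw [hM]; exact (le_max_left _ _).trans (le_max_right _ _))
  have hh1 : ∀ p, |h p| ≤ M := fun p => (hMh p).trans (by
    rw [hM]; exact (le_max_right _ _).trans (le_max_right _ _))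
  obtain ⟨Nf, hNf⟩ := exists_good f hmf hcf M hf1
  obtain ⟨Ng, hNg⟩ := exists_good g hmg hcg M hg1
  obtain ⟨Nh, hNh⟩ := exists_good h hmh hch M hh1
  have key := prod_bound (max C 0) (le_max_right _ _) hC' S ε hε M f g h (Nf + Ng + Nh)
    (fun N hN => hNf N (by omega)) (fun N hN => hNg N (by omega)) (fun N hN => hNh N (by omega))
  exact key

end Pool.Agent.TH9
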